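import Pool.Agent.H29.GradF.NonAxi

/-!
# The member `l = 1` of the family is axisymmetric
-/

open Set Real Filter

open scoped ContDiff Topology

namespace Pool.Agent.H29.GradF

open Pool.Agent.H29.Grad

/-- The rotation by the angle `t` about the third axis. -/
noncomputable def rot (t : ℝ) (x : R3) : R3 :=
  ![cos t * x 0 - sin t * x 1, sin t * x 0 + cos t * x 1, x 2]

theorem rot_zero (x : R3) : rot 0 x = x := by
  ext i
  fin_cases i <;> simp [rot]

theorem Q_rot (t : ℝ) (x : R3) : Q 1 (rot t x) = Q 1 x := by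
  change (cos t * x 0 - sin t * x 1) ^ 2 + 1 ^ 2 * (sin t * x 0 + cos t * x 1) ^ 2 =
    x 0 ^ 2 + 1 ^ 2 * x 1 ^ 2
  linear_combination (x 0 ^ 2 + x 1 ^ 2) * Real.sin_sq_add_cos_sq t

theorem D_rot (t : ℝ) (x : R3) : D 1 (rot t x) = D 1 x := by
  have h2 : rot t x 2 = x 2 := rfl
  rw [D, D, Q_rot, h2]

theorem L_rot (t : ℝ) (x : R3) : L 1 (rot t x) = L 1 x := by
  rw [L, L, D_rot]

theorem U_rot (t : ℝ) (x : R3) : U 1 (rot t x) = cos t * U 1 x - sin t * V 1 x := by
  have h0 : rot t x 0 = cos t * x 0 - sin t * x 1 := rfl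
  have h1 : rot t x 1 = sin t * x 0 + cos t * x 1 := rfl
  have h2 : rot t x 2 = x 2 := rfl
  rw [U, U, V, Q_rot, L_rot, h0, h1, h2]
  ring

theorem V_rot (t : ℝ) (x : R3) : V 1 (rot t x) = sin t * U 1 x + cos t * V 1 x := by
  have h0 : rot t x 0 = cos t * x 0 - sin t * x 1 := rfl
  have h1 : rot t x 1 = sin t * x 0 + cos t * x 1 := rfl
  have h2 : rot t x 2 = x 2 := rfl
  rw [V, U, V, Q_rot, L_rot, h0, h1, h2]
  ring

theorem field_rot (t : ℝ) (x : R3) : field 1 (rot t x) = rot t (field 1 x) := by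
  have f0 : field 1 x 0 = U 1 x := rfl
  have f1 : field 1 x 1 = V 1 x := div_one _
  have f2 : field 1 x 2 = Q 1 x - 1 := rfl
  ext i
  fin_cases i
  · change U 1 (rot t x) = cos t * field 1 x 0 - sin t * field 1 x 1
    rw [U_rot, f0, f1]
  · change V 1 (rot t x) / 1 = sin t * field 1 x 0 + cos t * field 1 x 1
    rw [div_one, V_rot, f0, f1]
  · change Q 1 (rot t x) - 1 = field 1 x 2
    rw [Q_rot, f2]

theorem pressure_rot (t : ℝ) (x : R3) : pressure 1 (rot t x) = pressure 1 x := by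
  have h0 : rot t x 0 = cos t * x 0 - sin t * x 1 := rfl
  have h1 : rot t x 1 = sin t * x 0 + cos t * x 1 := rfl
  have h2 : rot t x 2 = x 2 := rfl
  rw [pressure, pressure, U_rot, V_rot, Q_rot, h0, h1, h2]
  linear_combination (-(U 1 x ^ 2 + V 1 x ^ 2 + x 0 ^ 2 + x 1 ^ 2) / 2) * Real.sin_sq_add_cos_sq t

/-- The axis of rotation. -/
noncomputable def e3 : R3 := ![0, 0, 1]

theorem cross_e3 (x : R3) : crossProduct e3 (x - 0) = ![-x 1, x 0, 0] := by
  rw [sub_zero, cross_apply]
  simp [e3]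

theorem cross_e3' (x : R3) : crossProduct e3 x = ![-x 1, x 0, 0] := by
  rw [cross_apply]
  simp [e3]

theorem hasDerivAt_rot (x : R3) : HasDerivAt (fun t => rot t x) (![-x 1, x 0, 0] : R3) 0 := by
  rw [hasDerivAt_pi]
  have hc := Real.hasDerivAt_cos 0
  have hs := Real.hasDerivAt_sin 0
  rw [Real.sin_zero, neg_zero] at hc
  rw [Real.cos_zero] at hs
  intro i
  fin_cases i
  · change HasDerivAt (fun t => cos t * x 0 - sin t * x 1) (-x 1) 0
    refine ((hc.mul_const (x 0)).sub (hs.mul_const (x 1))).congr_deriv ?_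
    ring
  · change HasDerivAt (fun t => sin t * x 0 + cos t * x 1) (x 0) 0
    refine ((hs.mul_const (x 0)).add (hc.mul_const (x 1))).congr_deriv ?_
    ring
  · change HasDerivAt (fun _ => x 2) 0 0
    exact hasDerivAt_const _ _

theorem isAxisymmetric_one : IsAxisymmetric (tor 1 (1 / 2)) (field 1) (pressure 1) := by
  have h1ne : (1 : ℝ) ≠ 0 := one_ne_zero
  refine ⟨e3, 0, ?_, ?_, ?_, ?_⟩
  · intro h
    have := congrFun h 2
    simp [e3] at this
  · intro x hx
    rw [frontier_tor h1ne (by norm_num) (rad_gt (by norm_num))] at hx ⊢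
    refine ⟨fun t => rot t x, rot_zero x, fun t => ?_, ?_⟩
    · have hd : rot t x ∈ dom 1 := by
        change 0 < D 1 (rot t x)
        rw [D_rot]; exact hx.1
      refine ⟨hd, ?_⟩
      rw [← hx.2]
      exact (pressure_eq_iff h1ne hx.1 hd).1 (pressure_rot t x)
    · rw [cross_e3]
      exact hasDerivAt_rot x
  · intro x hx
    have hdiff : DifferentiableAt ℝ (field 1) x :=
      (contDiffOn_field.contDiffAt (isOpen_dom.mem_nhds hx.1)).differentiableAt (by simp)
    have h1 : HasFDerivAt (field 1) (fderiv ℝ (field 1) x) (rot 0 x) := by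
      rw [rot_zero]; exact hdiff.hasFDerivAt
    have h2 := h1.comp_hasDerivAt (0 : ℝ) (hasDerivAt_rot x)
    have h3 : (field 1 ∘ fun t => rot t x) = fun t => rot t (field 1 x) := by
      funext t
      exact field_rot t x
    rw [h3] at h2
    have h4 := (hasDerivAt_rot (field 1 x)).unique h2
    rw [cross_e3, cross_e3', h4, sub_self]
  · intro x hx
    have hdiff : DifferentiableAt ℝ (pressure 1) x :=
      (contDiffOn_pressure.contDiffAt (isOpen_dom.mem_nhds hx.1)).differentiableAt (by simp)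
    have h1 : HasFDerivAt (pressure 1) (fderiv ℝ (pressure 1) x) (rot 0 x) := by
      rw [rot_zero]; exact hdiff.hasFDerivAt
    have h2 := h1.comp_hasDerivAt (0 : ℝ) (hasDerivAt_rot x)
    have h3 : (pressure 1 ∘ fun t => rot t x) = fun _ => pressure 1 x := by
      funext t
      exact pressure_rot t x
    rw [h3] at h2
    rw [cross_e3]
    exact h2.unique (hasDerivAt_const _ _)

end Pool.Agent.H29.GradF
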