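import Pool.Agent.H29.Grad.Defs

/-!
# The rotational transform of a field on a toroidal surface

`Pool.Agent.H29.Grad.Defs` contains the definitions of solid toroidal domains,
magnetohydrostatic equilibria, toroidally nested level sets and axisymmetry.
-/

open Set Real

open scoped ContDiff

namespace Pool.Agent.H29.GradF

open Pool.Agent.H29.Grad

/-- The closed curve `c` (a `2π`-periodic map) is contractible in `W`: a homotopy of closed curves
in `W` joins it to a constant curve. -/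
def ContractibleIn (c : ℝ → R3) (W : Set R3) : Prop :=
  ∃ H : ℝ × ℝ → R3, ContinuousOn H (Icc 0 1 ×ˢ univ) ∧ (∀ t, H (0, t) = c t) ∧
    (∀ s ∈ Icc (0 : ℝ) 1, ∀ t, H (s, t + 2 * π) = H (s, t)) ∧
    (∀ s ∈ Icc (0 : ℝ) 1, ∀ t, H (s, t) ∈ W) ∧ ∃ a, ∀ t, H (1, t) = a

/-- The field `X` has rotational transform `ι` on the toroidal surface `∂R`, `R ⊆ ℝ³` a compact
domain.  There are smooth angular coordinates `(θ, φ) ∈ (ℝ / 2πℤ)²` on `∂R`, i.e. a smooth
embedding `Ψ` of the torus with image `∂R`, such that the meridians `θ = const` are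
contractible in `R`, the longitudes `φ = const` are contractible in the complement of the interior
of `R`, and in these coordinates `X = c (∂/∂θ + ι ∂/∂φ)` with a positive function `c`: the field
lines are the lines of slope `ι`, so that on the average they go round the short way `ι` times while
they go round the long way once. -/
def HasRotationalTransform (R : Set R3) (X : R3 → R3) (ι : ℝ) : Prop :=
  ∃ (Ψ : ℝ × ℝ → R3) (c : ℝ × ℝ → ℝ), ContDiff ℝ ∞ Ψ ∧
    (∀ q, Function.Injective (fderiv ℝ Ψ q)) ∧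
    (∀ θ φ, Ψ (θ + 2 * π, φ) = Ψ (θ, φ) ∧ Ψ (θ, φ + 2 * π) = Ψ (θ, φ)) ∧
    (∀ q q', Ψ q = Ψ q' → ∃ m n : ℤ, q' = (q.1 + m * (2 * π), q.2 + n * (2 * π))) ∧
    frontier R = range Ψ ∧
    (∀ θ, ContractibleIn (fun φ => Ψ (θ, φ)) R) ∧
    (∀ φ, ContractibleIn (fun θ => Ψ (θ, φ)) (interior R)ᶜ) ∧
    ∀ q, 0 < c q ∧ X (Ψ q) = c q • fderiv ℝ Ψ q (1, ι)

end Pool.Agent.H29.GradF
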