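import Pool.Agent.H29.GradF.Field

/-!
# The equilibrium equations for the explicit fields
-/

open Set Real

open scoped ContDiff Topology

namespace Pool.Agent.H29.GradF

open Pool.Agent.H29.Grad

variable {l : ℝ}

theorem fderiv_Q (x v : R3) : fderiv ℝ (Q l) x v = 2 * x 0 * v 0 + 2 * l ^ 2 * x 1 * v 1 := by
  rw [(hasFDerivAt_Q x).fderiv]
  simp

theorem pd_field_zero {x : R3} (i : Fin 3) :
    pd i (fun y => field l y 0) x = fderiv ℝ (U l) x (Pi.single i 1) := rfl

theorem pd_field_one {x : R3} (hx : x ∈ dom l) (i : Fin 3) :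
    pd i (fun y => field l y 1) x = fderiv ℝ (V l) x (Pi.single i 1) / l := by
  have h : HasFDerivAt (fun y => field l y 1) (l⁻¹ • fderiv ℝ (V l) x) x := by
    have h1 := (diff_V hx).hasFDerivAt.const_mul l⁻¹
    refine h1.congr_of_eventuallyEq (Filter.Eventually.of_forall fun y => ?_)
    change V l y / l = l⁻¹ * V l y
    ring
  unfold pd
  rw [h.fderiv]
  simp
  ring

theorem pd_field_two {x : R3} (i : Fin 3) :
    pd i (fun y => field l y 2) x = 2 * x 0 * (Pi.single i 1 : R3) 0 +
      2 * l ^ 2 * x 1 * (Pi.single i 1 : R3) 1 := by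
  have h : HasFDerivAt (fun y => field l y 2) (fderiv ℝ (Q l) x) x := by
    have h1 := (hasFDerivAt_Q (l := l) x).differentiableAt.hasFDerivAt.sub_const 1
    exact h1
  unfold pd
  rw [h.fderiv, fderiv_Q]

theorem hasFDerivAt_pressure {x : R3} (hx : x ∈ dom l) (v : R3) :
    fderiv ℝ (pressure l) x v = -(U l x * fderiv ℝ (U l) x v +
      V l x / l * (fderiv ℝ (V l) x v / l) +
      (Q l x - 1) * fderiv ℝ (Q l) x v + x 0 * v 0 + x 1 * v 1 + 4 * x 2 * v 2) := by
  have hU := (diff_U hx).hasFDerivAt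
  have hV := (diff_V hx).hasFDerivAt
  have hQ := (hasFDerivAt_Q (l := l) x).differentiableAt.hasFDerivAt
  have h := (((((((hU.pow 2).add ((hV.mul_const l⁻¹).pow 2)).add ((hQ.sub_const 1).pow 2)).add
    ((hasFDerivAt_coord 0 x).pow 2)).add ((hasFDerivAt_coord 1 x).pow 2)).add
    (((hasFDerivAt_coord 2 x).pow 2).const_mul 4)).const_mul (-(2 : ℝ)⁻¹))
  have h1 : HasFDerivAt (pressure l) _ x := h.congr_of_eventuallyEq (by
    refine Filter.Eventually.of_forall fun y => ?_
    simp only [pressure, Pi.add_apply]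
    ring)
  rw [h1.fderiv]
  simp
  ring

theorem divergence_field (hl : l ≠ 0) {x : R3} (hx : x ∈ dom l) : divergence (field l) x = 0 := by
  have hL := (L_pos hx).ne'
  unfold divergence
  rw [Fin.sum_univ_three, pd_field_zero, pd_field_one hx, pd_field_two]
  have h0 := (L_mul_deriv hx (Pi.single 0 1)).1
  have h1 := (L_mul_deriv hx (Pi.single 1 1)).2
  simp at h0 h1 ⊢
  have : L l x * (fderiv ℝ (U l) x (Pi.single 0 1) + fderiv ℝ (V l) x (Pi.single 1 1) / l) = 0 := by
    field_simp
    linear_combination l * h0 + h1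
  exact (mul_eq_zero.1 this).resolve_left hL

theorem balance_field (hl : l ≠ 0) {x : R3} (hx : x ∈ dom l) :
    crossProduct (curl (field l) x) (field l x) = gradient (pressure l) x := by
  have hL := (L_pos hx).ne'
  have hE := rel_E hx
  have hW := rel_W hx
  have hLr := rel_L hx
  have a0 := L_mul_deriv hx (Pi.single 0 1)
  have a1 := L_mul_deriv hx (Pi.single 1 1)
  have a2 := L_mul_deriv hx (Pi.single 2 1)
  have p0 : gradient (pressure l) x 0 = fderiv ℝ (pressure l) x (Pi.single 0 1) := rfl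
  have p1 : gradient (pressure l) x 1 = fderiv ℝ (pressure l) x (Pi.single 1 1) := rfl
  have p2 : gradient (pressure l) x 2 = fderiv ℝ (pressure l) x (Pi.single 2 1) := rfl
  rw [hasFDerivAt_pressure hx, fderiv_Q] at p0 p1 p2
  simp at a0 a1 a2 p0 p1 p2
  obtain ⟨a0, b0⟩ := a0
  obtain ⟨a1, b1⟩ := a1
  obtain ⟨a2, b2⟩ := a2
  have hQ : Q l x = x 0 ^ 2 + l ^ 2 * x 1 ^ 2 := rfl
  have c0 : curl (field l) x 0 = 2 * l ^ 2 * x 1 - fderiv ℝ (V l) x (Pi.single 2 1) / l := by
    change pd 1 (fun y => field l y 2) x - pd 2 (fun y => field l y 1) x = _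
    rw [pd_field_two, pd_field_one hx]; simp
  have c1 : curl (field l) x 1 = fderiv ℝ (U l) x (Pi.single 2 1) - 2 * x 0 := by
    change pd 2 (fun y => field l y 0) x - pd 0 (fun y => field l y 2) x = _
    rw [pd_field_two, pd_field_zero]; simp
  have c2 : curl (field l) x 2 = fderiv ℝ (V l) x (Pi.single 0 1) / l -
      fderiv ℝ (U l) x (Pi.single 1 1) := by
    change pd 0 (fun y => field l y 1) x - pd 1 (fun y => field l y 0) x = _
    rw [pd_field_one hx, pd_field_zero]
  have f0 : field l x 0 = U l x := rfl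
  have f1 : field l x 1 = V l x / l := rfl
  have f2 : field l x 2 = Q l x - 1 := rfl
  ext i
  rw [cross_apply]
  have key : ∀ a b : ℝ, L l x * a = L l x * b → a = b := fun a b h => mul_left_cancel₀ hL h
  fin_cases i
  · simp [c0, c1, c2, f0, f1, f2, p0]
    field_simp
    apply key
    linear_combination l ^ 2 * (Q l x - 1) * a2 + l * V l x * a1 + l ^ 2 * U l x * a0 -
      l ^ 2 * V l x * hE - l ^ 2 * x 0 * hLr - l ^ 2 * V l x * hQ
  · simp [c0, c1, c2, f0, f1, f2, p1]
    field_simp
    apply key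
    linear_combination l * U l x * b0 + l * (Q l x - 1) * b2 + V l x * b1 + l * U l x * hE +
      l * U l x * hQ - l ^ 2 * x 1 * hLr
  · simp [c0, c1, c2, f0, f1, f2, p2]
    field_simp
    linear_combination 2 * l ^ 2 * hW

end Pool.Agent.H29.GradF
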