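import Pool.Agent.H29.GradF.Defs

/-!
# The explicit family

Let `l > 0`.  With `Q = x² + l² y²`, `D = 1 - (Q - 1)² - 4 z²` and `L = √D`, the field is
`X = (-(2 x z + l y L) / Q, (x L - 2 l y z) / (l Q), Q - 1)` on the open set `D > 0`, the pressure
is `p = -|X|² / 2 - (x² + y² + 4 z²) / 2`, and the solid torus is `{D > 0, p ≥ p₀ - 1 / 8}` with
`p₀ = (1 - l⁻²)² / 8 - (1 + l⁻²) / 2` (the maximum of the pressure).
-/

namespace Pool.Agent.H29.GradF

open Pool.Agent.H29.Grad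

/-- `Q = x² + l² y²`. -/
def Q (l : ℝ) (x : R3) : ℝ := x 0 ^ 2 + l ^ 2 * x 1 ^ 2

/-- `D = 1 - (Q - 1)² - 4 z²`. -/
def D (l : ℝ) (x : R3) : ℝ := 1 - (Q l x - 1) ^ 2 - 4 * x 2 ^ 2

/-- `L = √D`. -/
noncomputable def L (l : ℝ) (x : R3) : ℝ := √(D l x)

/-- The first component of the field. -/
noncomputable def U (l : ℝ) (x : R3) : ℝ := -(2 * x 0 * x 2 + l * x 1 * L l x) / Q l x

/-- `l` times the second component of the field. -/
noncomputable def V (l : ℝ) (x : R3) : ℝ := (x 0 * L l x - 2 * l * x 1 * x 2) / Q l x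

/-- The field `X`. -/
noncomputable def field (l : ℝ) (x : R3) : R3 := ![U l x, V l x / l, Q l x - 1]

/-- The pressure `p = -|X|²/2 - (x² + y² + 4 z²)/2`. -/
noncomputable def pressure (l : ℝ) (x : R3) : ℝ :=
  -(U l x ^ 2 + (V l x / l) ^ 2 + (Q l x - 1) ^ 2 + x 0 ^ 2 + x 1 ^ 2 + 4 * x 2 ^ 2) / 2

/-- The open set on which the field is defined. -/
def dom (l : ℝ) : Set R3 := {x | 0 < D l x}

/-- The maximum `p₀ = (1 - l⁻²)² / 8 - (1 + l⁻²) / 2` of the pressure. -/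
noncomputable def pmax (l : ℝ) : ℝ := (1 - (l ^ 2)⁻¹) ^ 2 / 8 - (1 + (l ^ 2)⁻¹) / 2

/-- The solid torus: the part of the domain where the pressure is at least `p₀ - 1 / 8`. -/
def solidTorus (l : ℝ) : Set R3 := {x | 0 < D l x ∧ pmax l - 1 / 8 ≤ pressure l x}

end Pool.Agent.H29.GradF
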