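import Pool.Agent.H29.GradF.Axi

/-!
# The family of equilibria
-/

open Set Real Filter

open scoped ContDiff Topology

namespace Pool.Agent.H29.GradF

open Pool.Agent.H29.Grad

/-- The open set of the pairs `(l, x)`, `l > 0`, with `x` in the domain of the field with
parameter `l`. -/
def famDom : Set (ℝ × R3) := {q | 0 < q.1 ∧ 0 < D q.1 q.2}

theorem contDiff_snd_coord (i : Fin 3) : ContDiff ℝ ∞ (fun q : ℝ × R3 => q.2 i) :=
  (contDiff_coord i).comp contDiff_snd

theorem contDiff_Q_fam : ContDiff ℝ ∞ (fun q : ℝ × R3 => Q q.1 q.2) := by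
  unfold Q
  exact ((contDiff_snd_coord 0).pow 2).add ((contDiff_fst.pow 2).mul ((contDiff_snd_coord 1).pow 2))

theorem contDiff_D_fam : ContDiff ℝ ∞ (fun q : ℝ × R3 => D q.1 q.2) := by
  unfold D
  exact (contDiff_const.sub ((contDiff_Q_fam.sub contDiff_const).pow 2)).sub
    (contDiff_const.mul ((contDiff_snd_coord 2).pow 2))

theorem isOpen_famDom : IsOpen famDom :=
  (isOpen_lt continuous_const continuous_fst).inter
    (isOpen_lt continuous_const contDiff_D_fam.continuous)

theorem contDiffOn_L_fam : ContDiffOn ℝ ∞ (fun q : ℝ × R3 => L q.1 q.2) famDom := by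
  intro q hq
  exact (contDiff_D_fam.contDiffAt.sqrt (ne_of_gt hq.2)).contDiffWithinAt

theorem contDiffOn_U_fam : ContDiffOn ℝ ∞ (fun q : ℝ × R3 => U q.1 q.2) famDom := by
  unfold U
  refine ContDiffOn.div ?_ contDiff_Q_fam.contDiffOn fun q hq => (Q_pos hq.2).ne'
  refine ContDiffOn.neg ?_
  exact (((contDiff_const.mul (contDiff_snd_coord 0)).mul (contDiff_snd_coord 2)).contDiffOn).add
    ((contDiff_fst.mul (contDiff_snd_coord 1)).contDiffOn.mul contDiffOn_L_fam)

theorem contDiffOn_V_fam : ContDiffOn ℝ ∞ (fun q : ℝ × R3 => V q.1 q.2) famDom := by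
  unfold V
  refine ContDiffOn.div ?_ contDiff_Q_fam.contDiffOn fun q hq => (Q_pos hq.2).ne'
  exact ((contDiff_snd_coord 0).contDiffOn.mul contDiffOn_L_fam).sub
    ((((contDiff_const.mul contDiff_fst).mul (contDiff_snd_coord 1)).mul
      (contDiff_snd_coord 2)).contDiffOn)

theorem contDiffOn_V_div_fam : ContDiffOn ℝ ∞ (fun q : ℝ × R3 => V q.1 q.2 / q.1) famDom :=
  contDiffOn_V_fam.div contDiff_fst.contDiffOn fun _ hq => hq.1.ne'

theorem contDiffOn_field_fam : ContDiffOn ℝ ∞ (fun q : ℝ × R3 => field q.1 q.2) famDom := by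
  rw [contDiffOn_pi]
  intro i
  fin_cases i
  · exact contDiffOn_U_fam
  · exact contDiffOn_V_div_fam
  · exact (contDiff_Q_fam.sub contDiff_const).contDiffOn

theorem contDiffOn_pressure_fam : ContDiffOn ℝ ∞ (fun q : ℝ × R3 => pressure q.1 q.2) famDom := by
  unfold pressure
  refine ContDiffOn.div_const (ContDiffOn.neg ?_) 2
  exact (((((contDiffOn_U_fam.pow 2).add (contDiffOn_V_div_fam.pow 2)).add
    ((contDiff_Q_fam.sub contDiff_const).pow 2).contDiffOn).add
    ((contDiff_snd_coord 0).pow 2).contDiffOn).add ((contDiff_snd_coord 1).pow 2).contDiffOn).add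
    (contDiff_const.mul ((contDiff_snd_coord 2).pow 2)).contDiffOn

theorem axisymmetric_iff {l : ℝ} (hl0 : 0 < l) (hl : 1 / 2 < l ^ 2) :
    IsAxisymmetric (tor l (1 / 2)) (field l) (pressure l) ↔ l = 1 := by
  constructor
  · intro h
    by_contra h1
    refine not_axisymmetric hl (fun h2 => h1 ?_) h
    nlinarith
  · rintro rfl
    exact isAxisymmetric_one

/-- The explicit family of equilibria. -/
theorem family :
    (∀ l : ℝ, 0 < l → 1 / 2 < l ^ 2 →
      IsSolidTorus (solidTorus l) ∧ IsMHDEquilibrium (solidTorus l) (field l) (pressure l) ∧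
      HasToroidallyNestedLevelSets (solidTorus l) (pressure l) ∧
      (∀ x ∈ solidTorus l, gradient (pressure l) x ≠ 0 →
        HasRotationalTransform {y | y ∈ solidTorus l ∧ pressure l x ≤ pressure l y} (field l) 2) ∧
      (IsAxisymmetric (solidTorus l) (field l) (pressure l) ↔ l = 1)) ∧
    ∃ W : Set (ℝ × R3), IsOpen W ∧ (∀ l : ℝ, 0 < l → 1 / 2 < l ^ 2 → ∀ x ∈ solidTorus l, (l, x) ∈ W) ∧
      ContDiffOn ℝ ∞ (fun q : ℝ × R3 => field q.1 q.2) W ∧
      ContDiffOn ℝ ∞ (fun q : ℝ × R3 => pressure q.1 q.2) W := by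
  refine ⟨fun l hl0 hl => ?_, famDom, isOpen_famDom, fun l hl0 _ x hx => ⟨hl0, hx.1⟩,
    contDiffOn_field_fam, contDiffOn_pressure_fam⟩
  have hne := hl0.ne'
  rw [solidTorus_eq hne]
  refine ⟨isSolidTorus_tor hl, isMHDEquilibrium_tor hl, nested_tor hl, ?_, axisymmetric_iff hl0 hl⟩
  intro x hx hg
  rw [superLevel_eq hne hx]
  exact hasRotationalTransform_tor hne (g_ne_zero hne hx.1 hg) (lt_of_le_of_lt hx.2 (rad_gt hl))

end Pool.Agent.H29.GradF
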