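import Pool.Agent.H29.GradF.Example

/-!
# The explicit fields

They satisfy `div X = 0` and `(X · ∇) X = -(x, y, 4 z)`.
-/

open Set Real

open scoped ContDiff Topology

namespace Pool.Agent.H29.GradF

open Pool.Agent.H29.Grad

variable {l : ℝ}

theorem contDiff_coord (i : Fin 3) : ContDiff ℝ ∞ (fun x : R3 => x i) :=
  (ContinuousLinearMap.proj (R := ℝ) (φ := fun _ : Fin 3 => ℝ) i).contDiff

theorem contDiff_Q : ContDiff ℝ ∞ (Q l) := by
  unfold Q
  exact ((contDiff_coord 0).pow 2).add (contDiff_const.mul ((contDiff_coord 1).pow 2))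

theorem contDiff_D : ContDiff ℝ ∞ (D l) := by
  unfold D
  exact (contDiff_const.sub ((contDiff_Q.sub contDiff_const).pow 2)).sub
    (contDiff_const.mul ((contDiff_coord 2).pow 2))

theorem isOpen_dom : IsOpen (dom l) := isOpen_lt continuous_const contDiff_D.continuous

theorem Q_pos {x : R3} (hx : x ∈ dom l) : 0 < Q l x := by
  have h : 0 < 1 - (Q l x - 1) ^ 2 - 4 * x 2 ^ 2 := hx
  nlinarith [sq_nonneg (x 2), sq_nonneg (Q l x)]

theorem L_pos {x : R3} (hx : x ∈ dom l) : 0 < L l x := Real.sqrt_pos.2 hx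

theorem L_sq {x : R3} (hx : x ∈ dom l) : L l x ^ 2 = D l x := Real.sq_sqrt (le_of_lt hx)

theorem rel_W {x : R3} (hx : x ∈ dom l) : x 0 * U l x + l * x 1 * V l x = -2 * x 2 := by
  have hQ := (Q_pos hx).ne'
  unfold U V
  field_simp
  unfold Q
  ring

theorem rel_L {x : R3} (hx : x ∈ dom l) : x 0 * V l x - l * x 1 * U l x = L l x := by
  have hQ := (Q_pos hx).ne'
  unfold U V
  field_simp
  unfold Q
  ring

theorem rel_E {x : R3} (hx : x ∈ dom l) : U l x ^ 2 + V l x ^ 2 + Q l x = 2 := by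
  have hQ := (Q_pos hx).ne'
  have h1 := rel_W hx
  have h2 := rel_L hx
  have h3 := L_sq hx
  have h4 : Q l x * (U l x ^ 2 + V l x ^ 2 + Q l x - 2) = 0 := by
    have h5 : Q l x * (U l x ^ 2 + V l x ^ 2) = (x 0 * U l x + l * x 1 * V l x) ^ 2 +
        (x 0 * V l x - l * x 1 * U l x) ^ 2 := by
      unfold Q
      ring
    have h6 : Q l x * (U l x ^ 2 + V l x ^ 2) = 4 * x 2 ^ 2 + D l x := by
      rw [h5, h1, h2, h3]; ring
    have h7 : D l x = 1 - (Q l x - 1) ^ 2 - 4 * x 2 ^ 2 := rfl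
    rw [h7] at h6
    linear_combination h6
  rcases mul_eq_zero.1 h4 with h | h
  · exact absurd h hQ
  · linarith

theorem contDiffOn_L : ContDiffOn ℝ ∞ (L l) (dom l) := by
  intro x hx
  exact (contDiff_D.contDiffAt.sqrt (ne_of_gt hx)).contDiffWithinAt

theorem contDiffOn_U : ContDiffOn ℝ ∞ (U l) (dom l) := by
  unfold U
  refine ContDiffOn.div ?_ contDiff_Q.contDiffOn fun x hx => (Q_pos hx).ne'
  refine ContDiffOn.neg ?_
  exact (((contDiff_const.mul (contDiff_coord 0)).mul (contDiff_coord 2)).contDiffOn).add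
    ((contDiff_const.mul (contDiff_coord 1)).contDiffOn.mul contDiffOn_L)

theorem contDiffOn_V : ContDiffOn ℝ ∞ (V l) (dom l) := by
  unfold V
  refine ContDiffOn.div ?_ contDiff_Q.contDiffOn fun x hx => (Q_pos hx).ne'
  exact ((contDiff_coord 0).contDiffOn.mul contDiffOn_L).sub
    (((contDiff_const.mul (contDiff_coord 1)).mul (contDiff_coord 2)).contDiffOn)

theorem contDiffOn_field : ContDiffOn ℝ ∞ (field l) (dom l) := by
  rw [contDiffOn_pi]
  intro i
  fin_cases i
  · exact contDiffOn_U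
  · exact contDiffOn_V.div_const l
  · exact (contDiff_Q.sub contDiff_const).contDiffOn

theorem contDiffOn_pressure : ContDiffOn ℝ ∞ (pressure l) (dom l) := by
  unfold pressure
  refine ContDiffOn.div_const (ContDiffOn.neg ?_) 2
  exact (((((contDiffOn_U.pow 2).add ((contDiffOn_V.div_const l).pow 2)).add
    ((contDiff_Q.sub contDiff_const).pow 2).contDiffOn).add
    ((contDiff_coord 0).pow 2).contDiffOn).add ((contDiff_coord 1).pow 2).contDiffOn).add
    (contDiff_const.mul ((contDiff_coord 2).pow 2)).contDiffOn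

theorem diff_U {x : R3} (hx : x ∈ dom l) : DifferentiableAt ℝ (U l) x :=
  (contDiffOn_U.contDiffAt (isOpen_dom.mem_nhds hx)).differentiableAt (by simp)

theorem diff_V {x : R3} (hx : x ∈ dom l) : DifferentiableAt ℝ (V l) x :=
  (contDiffOn_V.contDiffAt (isOpen_dom.mem_nhds hx)).differentiableAt (by simp)

theorem hasFDerivAt_coord (i : Fin 3) (x : R3) :
    HasFDerivAt (fun y : R3 => y i) (ContinuousLinearMap.proj (R := ℝ) (φ := fun _ : Fin 3 => ℝ) i) x :=
  (ContinuousLinearMap.proj (R := ℝ) (φ := fun _ : Fin 3 => ℝ) i).hasFDerivAt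

theorem hasFDerivAt_Q (x : R3) : HasFDerivAt (Q l)
    ((2 * x 0) • ContinuousLinearMap.proj (R := ℝ) (φ := fun _ : Fin 3 => ℝ) 0 +
      (2 * l ^ 2 * x 1) • ContinuousLinearMap.proj (R := ℝ) (φ := fun _ : Fin 3 => ℝ) 1) x := by
  have h := ((hasFDerivAt_coord 0 x).pow 2).add (((hasFDerivAt_coord 1 x).pow 2).const_mul (l ^ 2))
  refine h.congr_fderiv ?_
  ext v
  simp
  ring

/-- The derivatives of `U` and `V` satisfy the two linearised relations. -/
theorem deriv_rel {x : R3} (hx : x ∈ dom l) (v : R3) :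
    U l x * fderiv ℝ (U l) x v + V l x * fderiv ℝ (V l) x v + x 0 * v 0 + l ^ 2 * x 1 * v 1 = 0 ∧
    x 0 * fderiv ℝ (U l) x v + l * x 1 * fderiv ℝ (V l) x v + 2 * v 2 + U l x * v 0 +
      l * V l x * v 1 = 0 := by
  have hU := (diff_U hx).hasFDerivAt
  have hV := (diff_V hx).hasFDerivAt
  have hnhds := isOpen_dom.mem_nhds hx
  constructor
  · have h1 : (fun y => U l y ^ 2 + V l y ^ 2 + Q l y) =ᶠ[𝓝 x] fun _ => (2 : ℝ) := by
      filter_upwards [hnhds] with y hy using rel_E hy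
    have h2 := ((hU.pow 2).add (hV.pow 2)).add (hasFDerivAt_Q (l := l) x)
    have h3 : HasFDerivAt (fun y => U l y ^ 2 + V l y ^ 2 + Q l y) (0 : R3 →L[ℝ] ℝ) x :=
      (hasFDerivAt_const (2 : ℝ) x).congr_of_eventuallyEq h1
    have h4 := congrArg (fun A : R3 →L[ℝ] ℝ => A v) (h2.unique h3)
    simp at h4
    linarith
  · have h1 : (fun y : R3 => y 0 * U l y + l * y 1 * V l y + 2 * y 2) =ᶠ[𝓝 x] fun _ => (0 : ℝ) := by
      filter_upwards [hnhds] with y hy
      have := rel_W hy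
      linarith
    have h2 := (((hasFDerivAt_coord 0 x).mul hU).add
      (((hasFDerivAt_coord 1 x).const_mul l).mul hV)).add ((hasFDerivAt_coord 2 x).const_mul 2)
    have h3 : HasFDerivAt (fun y : R3 => y 0 * U l y + l * y 1 * V l y + 2 * y 2)
        (0 : R3 →L[ℝ] ℝ) x :=
      (hasFDerivAt_const (0 : ℝ) x).congr_of_eventuallyEq h1
    have h4 := congrArg (fun A : R3 →L[ℝ] ℝ => A v) (h2.unique h3)
    simp at h4
    linarith

/-- The derivatives of `U` and `V`, multiplied by `L`. -/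
theorem L_mul_deriv {x : R3} (hx : x ∈ dom l) (v : R3) :
    L l x * fderiv ℝ (U l) x v = l * x 1 * (x 0 * v 0 + l ^ 2 * x 1 * v 1) -
        V l x * (2 * v 2 + U l x * v 0 + l * V l x * v 1) ∧
    L l x * fderiv ℝ (V l) x v = U l x * (2 * v 2 + U l x * v 0 + l * V l x * v 1) -
        x 0 * (x 0 * v 0 + l ^ 2 * x 1 * v 1) := by
  obtain ⟨h1, h2⟩ := deriv_rel hx v
  have h3 := rel_L hx
  constructor
  · linear_combination (-fderiv ℝ (U l) x v) * h3 + V l x * h2 - l * x 1 * h1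
  · linear_combination (-fderiv ℝ (V l) x v) * h3 - U l x * h2 + x 0 * h1

end Pool.Agent.H29.GradF
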