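import Pool.Agent.H29.GradF.Topology

/-!
# The solid torus, the equilibrium on it, and the nested level sets of the pressure
-/

open Set Real Filter

open scoped ContDiff Topology

namespace Pool.Agent.H29.GradF

open Pool.Agent.H29.Grad

variable {l : ℝ}

theorem differentiableAt_Phi {q : ℂ × ℝ} (hq : q ∈ openTube 1) : DifferentiableAt ℝ (Phi l) q :=
  (contDiffOn_Phi.contDiffAt ((isOpen_openTube 1).mem_nhds hq)).differentiableAt (by simp)

/-- Composition of the parametrisation with an immersion is an immersion. -/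
theorem injective_comp (hl : l ≠ 0) {E : Type*} [NormedAddCommGroup E] [NormedSpace ℝ E]
    {A : E → ℂ × ℝ}
    {A' : E →L[ℝ] ℂ × ℝ} {q : E} (hA : HasFDerivAt A A' q) (hA' : Function.Injective A')
    (hq : A q ∈ openTube 1) : Function.Injective (fderiv ℝ (fun e => Phi l (A e)) q) := by
  have h := (differentiableAt_Phi (l := l) hq).hasFDerivAt.comp q hA
  have h1 : fderiv ℝ (fun e => Phi l (A e)) q = (fderiv ℝ (Phi l) (A q)).comp A' := h.fderiv
  rw [h1]
  exact (injective_fderiv_Phi hl hq).comp hA'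

theorem isSolidTorus_tor (hl : 1 / 2 < l ^ 2) : IsSolidTorus (tor l (1 / 2)) := by
  have hl0 := ne_zero_of_half hl
  have hr := rad_gt hl
  have hmem : ∀ q ∈ openTube (2 * rad l), ((cen l + (1 / 2 : ℝ) • q.1, q.2) : ℂ × ℝ) ∈ openTube 1 := by
    intro q hq
    have hq' : ‖q.1‖ < 2 * rad l := hq
    apply norm_lt_one'
    rw [norm_smul]
    norm_num
    linarith
  refine ⟨2 * rad l, fun q => Phi l (cen l + (1 / 2 : ℝ) • q.1, q.2), by linarith, ?_, ?_, ?_, ?_, ?_⟩
  · have hA : ContDiff ℝ ∞ (fun q : ℂ × ℝ => ((cen l + (1 / 2 : ℝ) • q.1, q.2) : ℂ × ℝ)) := by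
      fun_prop
    exact contDiffOn_Phi.comp hA.contDiffOn hmem
  · intro q hq
    have hA : HasFDerivAt (fun q : ℂ × ℝ => ((cen l + (1 / 2 : ℝ) • q.1, q.2) : ℂ × ℝ))
        (((1 / 2 : ℝ) • ContinuousLinearMap.fst ℝ ℂ ℝ).prod (ContinuousLinearMap.snd ℝ ℂ ℝ)) q :=
      ((hasFDerivAt_fst.const_smul (1 / 2 : ℝ)).const_add (cen l)).prodMk hasFDerivAt_snd
    refine injective_comp hl0 hA ?_ (hmem q hq)
    intro a b hab
    simp only [ContinuousLinearMap.prod_apply, smul_apply,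
      ContinuousLinearMap.coe_fst', ContinuousLinearMap.coe_snd', Prod.mk.injEq] at hab
    refine Prod.ext ?_ hab.2
    exact smul_right_injective ℂ (by norm_num : (1 / 2 : ℝ) ≠ 0) hab.1
  · intro w θ
    exact Phi_periodic _ _
  · intro q hq q' hq' heq
    obtain ⟨h1, h2⟩ := Phi_inj hl0 (hmem q hq) (hmem q' hq') heq
    refine ⟨?_, h2⟩
    have h3 := add_left_cancel h1
    exact smul_right_injective ℂ (by norm_num : (1 / 2 : ℝ) ≠ 0) h3
  · ext x
    constructor
    · rintro ⟨hx, hg⟩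
      obtain ⟨θ, -, hθ⟩ := exists_Phi hl0 hx
      refine ⟨((2 : ℝ) • g l x, θ), ?_, ?_⟩
      · change ‖(2 : ℝ) • g l x‖ ≤ 1
        rw [norm_smul]
        norm_num
        linarith
      · change Phi l (cen l + (1 / 2 : ℝ) • ((2 : ℝ) • g l x), θ) = x
        rw [smul_smul]
        norm_num
        rw [g, add_sub_cancel]
        exact hθ
    · rintro ⟨⟨v, θ⟩, hv, rfl⟩
      have hv' : ‖v‖ ≤ 1 := hv
      have h1 : ‖(1 / 2 : ℝ) • v‖ ≤ 1 / 2 := by
        rw [norm_smul]; norm_num; linarith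
      have h2 : ‖cen l + (1 / 2 : ℝ) • v‖ < 1 := norm_lt_one' (by linarith)
      refine ⟨Phi_mem_dom hl0 h2 θ, ?_⟩
      change ‖g l (Phi l (cen l + (1 / 2 : ℝ) • v, θ))‖ ≤ 1 / 2
      rw [g_Phi hl0 h2, add_sub_cancel_left]
      exact h1

theorem isEmbeddedTorus_sph (hl : l ≠ 0) {ρ : ℝ} (hρ0 : 0 < ρ) (hρ : ρ < rad l) :
    IsEmbeddedTorus (sph l ρ) := by
  have hnorm : ∀ φ : ℝ, ‖(ρ : ℂ) * Complex.exp (φ * Complex.I)‖ = ρ := by
    intro φ
    rw [norm_mul, Complex.norm_exp_ofReal_mul_I, Complex.norm_real, mul_one, Real.norm_eq_abs,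
      abs_of_pos hρ0]
  have hmem : ∀ q : ℝ × ℝ, ((cen l + ρ * Complex.exp (q.1 * Complex.I), q.2) : ℂ × ℝ) ∈ openTube 1 := by
    intro q
    apply norm_lt_one'
    rw [hnorm]
    exact hρ
  have hd : ∀ t : ℝ, HasDerivAt (fun t : ℝ => cen l + ρ * Complex.exp (t * Complex.I))
      (ρ * (Complex.exp (t * Complex.I) * Complex.I)) t := by
    intro t
    have h := (((Complex.ofRealCLM.hasDerivAt (x := t)).mul_const Complex.I).cexp).const_mul (ρ : ℂ)
    have h' := h.const_add (cen l)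
    simpa using h'
  refine ⟨fun q => Phi l (cen l + ρ * Complex.exp (q.1 * Complex.I), q.2), ?_, ?_, ?_, ?_, ?_⟩
  · have hA : ContDiff ℝ ∞ (fun q : ℝ × ℝ =>
        ((cen l + ρ * Complex.exp (q.1 * Complex.I), q.2) : ℂ × ℝ)) := by
      have h1 : ContDiff ℝ ∞ (fun t : ℝ => (t : ℂ)) := Complex.ofRealCLM.contDiff
      have h2 : ContDiff ℝ ∞ (fun q : ℝ × ℝ => (q.1 : ℂ) * Complex.I) :=
        (h1.comp contDiff_fst).mul contDiff_const
      have h3 : ContDiff ℝ ∞ (fun q : ℝ × ℝ => Complex.exp ((q.1 : ℂ) * Complex.I)) := h2.cexp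
      exact (contDiff_const.add (contDiff_const.mul h3)).prodMk contDiff_snd
    rw [← contDiffOn_univ]
    exact contDiffOn_Phi.comp hA.contDiffOn fun q _ => hmem q
  · intro q
    have hA : HasFDerivAt (fun q : ℝ × ℝ => ((cen l + ρ * Complex.exp (q.1 * Complex.I), q.2) : ℂ × ℝ))
        (((ContinuousLinearMap.smulRight (1 : ℝ →L[ℝ] ℝ)
          ((ρ : ℂ) * (Complex.exp (q.1 * Complex.I) * Complex.I))).comp
            (ContinuousLinearMap.fst ℝ ℝ ℝ)).prod (ContinuousLinearMap.snd ℝ ℝ ℝ)) q :=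
      ((hd q.1).hasFDerivAt.comp q hasFDerivAt_fst).prodMk hasFDerivAt_snd
    refine injective_comp hl hA ?_ (hmem q)
    intro a b hab
    simp only [ContinuousLinearMap.prod_apply, ContinuousLinearMap.comp_apply,
      ContinuousLinearMap.smulRight_apply, ContinuousLinearMap.coe_fst',
      ContinuousLinearMap.coe_snd', Prod.mk.injEq] at hab
    have hne : (ρ : ℂ) * (Complex.exp (q.1 * Complex.I) * Complex.I) ≠ 0 :=
      mul_ne_zero (Complex.ofReal_ne_zero.2 hρ0.ne')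
        (mul_ne_zero (Complex.exp_ne_zero _) Complex.I_ne_zero)
    refine Prod.ext ?_ hab.2
    exact smul_left_injective ℝ hne hab.1
  · intro φ θ
    constructor
    · have : Complex.exp (((φ + 2 * π : ℝ) : ℂ) * Complex.I) = Complex.exp (φ * Complex.I) := by
        push_cast
        rw [add_mul, Complex.exp_add, Complex.exp_two_pi_mul_I, mul_one]
      simp only [this]
    · exact Phi_periodic _ _
  · intro q q' heq
    obtain ⟨h1, n, h2⟩ := Phi_inj hl (hmem q) (hmem q') heq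
    have h3 := add_left_cancel h1
    have h4 := mul_left_cancel₀ (Complex.ofReal_ne_zero.2 hρ0.ne') h3
    obtain ⟨m, hm⟩ := Complex.exp_eq_exp_iff_exists_int.1 h4.symm
    refine ⟨m, n, Prod.ext ?_ h2⟩
    have h5 : ((q'.1 : ℂ) - (q.1 + m * (2 * π))) * Complex.I = 0 := by
      rw [sub_mul, hm]; ring
    have h6 := (mul_eq_zero.1 h5).resolve_right Complex.I_ne_zero
    have h7 : ((q'.1 - (q.1 + m * (2 * π)) : ℝ) : ℂ) = 0 := by push_cast; exact h6
    have h8 := Complex.ofReal_eq_zero.1 h7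
    change q'.1 = q.1 + m * (2 * π)
    linarith
  · ext x
    constructor
    · rintro ⟨hx, hg⟩
      obtain ⟨θ, -, hθ⟩ := exists_Phi hl hx
      refine ⟨(Complex.arg (g l x), θ), ?_⟩
      change Phi l (cen l + ρ * Complex.exp (Complex.arg (g l x) * Complex.I), θ) = x
      rw [← hg, Complex.norm_mul_exp_arg_mul_I, g, add_sub_cancel]
      exact hθ
    · rintro ⟨q, rfl⟩
      refine ⟨Phi_mem_dom hl (hmem q) q.2, ?_⟩
      change ‖g l (Phi l (cen l + ρ * Complex.exp (q.1 * Complex.I), q.2))‖ = ρ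
      rw [g_Phi hl (hmem q), add_sub_cancel_left, hnorm]

theorem field_ne_zero (hl : l ≠ 0) {x : R3} (hx : x ∈ dom l) : field l x ≠ 0 := by
  intro h
  have h0 : U l x = 0 := congrFun h 0
  have h1 : V l x / l = 0 := congrFun h 1
  have h2 := rel_L hx
  have h3 := L_pos hx
  have h4 : V l x = 0 := (div_eq_zero_iff.1 h1).resolve_right hl
  rw [h0, h4] at h2
  linarith

theorem norm_cen_lt (hl : 1 / 2 < l ^ 2) : ‖cen l‖ < 1 := by
  rw [norm_cen]
  linarith [beta_lt hl]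

theorem isEmbeddedCircle_sph (hl : 1 / 2 < l ^ 2) : IsEmbeddedCircle (sph l 0) := by
  have hl0 := ne_zero_of_half hl
  have hc : ‖cen l‖ < 1 := norm_cen_lt hl
  refine ⟨fun t => Phi l (cen l, t), ?_, ?_, ?_, ?_, ?_⟩
  · have hA : ContDiff ℝ ∞ (fun t : ℝ => ((cen l, t) : ℂ × ℝ)) := contDiff_const.prodMk contDiff_id
    rw [← contDiffOn_univ]
    exact contDiffOn_Phi.comp hA.contDiffOn fun t _ => hc
  · intro t
    rw [(hasDerivAt_Phi hl0 hc t).deriv]
    exact field_ne_zero hl0 (Phi_mem_dom hl0 hc t)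
  · intro t
    exact Phi_periodic _ _
  · intro s t h
    exact (Phi_inj hl0 hc hc h).2
  · ext x
    constructor
    · rintro ⟨hx, hg⟩
      obtain ⟨θ, -, hθ⟩ := exists_Phi hl0 hx
      refine ⟨θ, ?_⟩
      have h1 : wmap l x = cen l := by
        have := norm_eq_zero.1 hg
        exact sub_eq_zero.1 this
      change Phi l (cen l, θ) = x
      rw [← h1]
      exact hθ
    · rintro ⟨t, rfl⟩
      refine ⟨Phi_mem_dom hl0 hc t, ?_⟩
      change ‖g l (Phi l (cen l, t))‖ = 0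
      rw [g_Phi hl0 hc, sub_self, norm_zero]

theorem isMHDEquilibrium_tor (hl : 1 / 2 < l ^ 2) :
    IsMHDEquilibrium (tor l (1 / 2)) (field l) (pressure l) where
  smooth := ⟨dom l, isOpen_dom, fun _ hx => hx.1, contDiffOn_field, contDiffOn_pressure⟩
  balance := fun _ hx => balance_field (ne_zero_of_half hl) hx.1
  divFree := fun _ hx => divergence_field (ne_zero_of_half hl) hx.1
  tangent := by
    intro x hx
    have hl0 := ne_zero_of_half hl
    rw [frontier_tor hl0 (by norm_num) (rad_gt hl)] at hx ⊢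
    obtain ⟨θ, -, hθ⟩ := exists_Phi hl0 hx.1
    have hw := norm_wmap hx.1
    refine ⟨fun t => Phi l (wmap l x, θ + t), ?_, ?_, ?_⟩
    · change Phi l (wmap l x, θ + 0) = x
      rw [add_zero, hθ]
    · intro t
      refine ⟨Phi_mem_dom hl0 hw _, ?_⟩
      change ‖g l (Phi l (wmap l x, θ + t))‖ = 1 / 2
      rw [g_Phi hl0 hw]
      exact hx.2
    · have h := hasDerivAt_Phi hl0 hw θ
      rw [hθ] at h
      have h1 : HasDerivAt (fun t => Phi l (wmap l x, t)) (field l x) (θ + 0) := by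
        rw [add_zero]; exact h
      exact h1.comp_const_add θ 0

/-- The pressure has no critical points off the axis. -/
theorem gradient_pressure_ne (hl : l ≠ 0) {x : R3} (hx : x ∈ dom l) (hg : g l x ≠ 0) :
    gradient (pressure l) x ≠ 0 := by
  intro hgrad
  have hdiff : DifferentiableAt ℝ (pressure l) x :=
    (contDiffOn_pressure.contDiffAt (isOpen_dom.mem_nhds hx)).differentiableAt (by simp)
  have hzero : fderiv ℝ (pressure l) x = 0 := by
    ext v
    have hv : v = ∑ i, v i • (Pi.single i 1 : R3) := by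
      ext j
      simp [Finset.sum_apply, Pi.single_apply]
    rw [hv, map_sum]
    refine Finset.sum_eq_zero fun i _ => ?_
    rw [map_smul]
    have : fderiv ℝ (pressure l) x (Pi.single i 1) = 0 := congrFun hgrad i
    rw [this, smul_zero]
  obtain ⟨θ, -, hθ⟩ := exists_Phi hl hx
  have h1 : HasDerivAt (fun t => pressure l (ray l x θ t)) 0 0 := by
    have h2 : HasFDerivAt (pressure l) (0 : R3 →L[ℝ] ℝ) (ray l x θ 0) := by
      rw [ray_zero hθ, ← hzero]
      exact hdiff.hasFDerivAt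
    have h3 := h2.comp_hasDerivAt (0 : ℝ) (hasDerivAt_ray hx θ)
    exact h3
  have h4 : (fun t : ℝ => pmax l - ((1 + t) * ‖g l x‖) ^ 2 / 2) =ᶠ[𝓝 0]
      (fun t => pressure l (ray l x θ t)) := by
    filter_upwards [ray_eventually hx] with t ht
    rw [pressure_g hl (ray_mem_dom hl ht), g_ray hl ht, norm_mul]
    have : ‖(1 + t : ℂ)‖ ^ 2 = (1 + t) ^ 2 := by
      have h5 : (1 + t : ℂ) = ((1 + t : ℝ) : ℂ) := by push_cast; ring
      rw [h5, Complex.norm_real, Real.norm_eq_abs, sq_abs]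
    rw [mul_pow, mul_pow, this]
  have h5 := h1.congr_of_eventuallyEq h4
  have h6 : HasDerivAt (fun t : ℝ => pmax l - ((1 + t) * ‖g l x‖) ^ 2 / 2)
      (-(‖g l x‖ ^ 2)) 0 := by
    have h7 := (((((hasDerivAt_id (0 : ℝ)).const_add 1).mul_const ‖g l x‖).pow 2).div_const 2).const_sub
      (pmax l)
    refine h7.congr_deriv ?_
    simp
    ring
  have h8 := h5.unique h6
  have h9 : ‖g l x‖ ^ 2 = 0 := by linarith
  exact hg (norm_eq_zero.1 (pow_eq_zero_iff (by norm_num) |>.1 h9))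

theorem pressure_eq_iff (hl : l ≠ 0) {x y : R3} (hx : x ∈ dom l) (hy : y ∈ dom l) :
    pressure l y = pressure l x ↔ ‖g l y‖ = ‖g l x‖ := by
  rw [pressure_g hl hx, pressure_g hl hy]
  constructor
  · intro h
    have : ‖g l y‖ ^ 2 = ‖g l x‖ ^ 2 := by linarith
    exact (sq_eq_sq₀ (norm_nonneg _) (norm_nonneg _)).1 this
  · intro h
    rw [h]

theorem levelSet_eq (hl : l ≠ 0) {x : R3} (hx : x ∈ tor l (1 / 2)) :
    levelSet (tor l (1 / 2)) (pressure l) x = sph l ‖g l x‖ := by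
  ext y
  constructor
  · rintro ⟨hy, hp⟩
    exact ⟨hy.1, (pressure_eq_iff hl hx.1 hy.1).1 hp⟩
  · rintro ⟨hy, hp⟩
    exact ⟨⟨hy, by rw [hp]; exact hx.2⟩, (pressure_eq_iff hl hx.1 hy).2 hp⟩

theorem superLevel_eq (hl : l ≠ 0) {x : R3} (hx : x ∈ tor l (1 / 2)) :
    {y | y ∈ tor l (1 / 2) ∧ pressure l x ≤ pressure l y} = tor l ‖g l x‖ := by
  ext z
  constructor
  · rintro ⟨hz, hyz⟩
    refine ⟨hz.1, ?_⟩
    rw [pressure_g hl hx.1, pressure_g hl hz.1] at hyz
    have : ‖g l z‖ ^ 2 ≤ ‖g l x‖ ^ 2 := by linarith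
    exact (sq_le_sq₀ (norm_nonneg _) (norm_nonneg _)).1 this
  · rintro ⟨hz, hzx⟩
    refine ⟨⟨hz, hzx.trans hx.2⟩, ?_⟩
    rw [pressure_g hl hx.1, pressure_g hl hz]
    have : ‖g l z‖ ^ 2 ≤ ‖g l x‖ ^ 2 := (sq_le_sq₀ (norm_nonneg _) (norm_nonneg _)).2 hzx
    linarith

theorem nested_tor (hl : 1 / 2 < l ^ 2) :
    HasToroidallyNestedLevelSets (tor l (1 / 2)) (pressure l) := by
  have hl0 := ne_zero_of_half hl
  have hr := rad_gt hl
  have hpos : ∀ x ∈ tor l (1 / 2) \ sph l 0, 0 < ‖g l x‖ := by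
    rintro x ⟨hx, hx0⟩
    refine lt_of_le_of_ne (norm_nonneg _) fun h => hx0 ⟨hx.1, h.symm⟩
  refine ⟨sph l 0, isEmbeddedCircle_sph hl, ?_, ?_, ?_⟩
  · intro x hx
    rw [interior_tor hl0 (by norm_num)]
    exact ⟨hx.1, by rw [hx.2]; norm_num⟩
  · intro x hx
    rw [levelSet_eq hl0 hx]
    by_cases h0 : ‖g l x‖ = 0
    · left; rw [h0]
    · right
      have hp : 0 < ‖g l x‖ := lt_of_le_of_ne (norm_nonneg _) (Ne.symm h0)
      refine ⟨isEmbeddedTorus_sph hl0 hp (lt_of_le_of_lt hx.2 hr), ?_⟩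
      rintro y ⟨hy, hyg⟩
      refine gradient_pressure_ne hl0 hy ?_
      rw [← norm_ne_zero_iff, hyg]
      exact h0
  · have hR : ∀ x ∈ tor l (1 / 2), {z | z ∈ tor l (1 / 2) ∧
        ∃ y ∈ levelSet (tor l (1 / 2)) (pressure l) x, pressure l y ≤ pressure l z} =
        tor l ‖g l x‖ := by
      intro x hx
      rw [← superLevel_eq hl0 hx]
      ext z
      constructor
      · rintro ⟨hz, y, hy, hyz⟩
        exact ⟨hz, hy.2 ▸ hyz⟩
      · rintro ⟨hz, hzx⟩
        exact ⟨hz, x, ⟨hx, rfl⟩, hzx⟩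
    refine ⟨fun S => {z | z ∈ tor l (1 / 2) ∧ ∃ y ∈ S, pressure l y ≤ pressure l z}, ?_, ?_⟩
    · intro x hx
      have hp := hpos x hx
      have hlt : ‖g l x‖ < rad l := lt_of_le_of_lt hx.1.2 hr
      simp only [hR x hx.1]
      refine ⟨⟨isCompact_tor hl0 hlt, closure_interior_tor hl0 hp hlt, ?_⟩, ?_⟩
      · rw [frontier_tor hl0 hp hlt, levelSet_eq hl0 hx.1]
      · intro y hy
        rw [interior_tor hl0 hp]
        exact ⟨hy.1, by rw [hy.2]; exact hp⟩
    · intro x hx y hy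
      simp only [hR x hx.1, hR y hy.1]
      rcases le_total ‖g l x‖ ‖g l y‖ with h | h
      · left; exact fun z hz => ⟨hz.1, hz.2.trans h⟩
      · right; exact fun z hz => ⟨hz.1, hz.2.trans h⟩

end Pool.Agent.H29.GradF
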