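import Pool.Agent.H29.GradF.Rot

/-!
# The equilibria with `l ≠ 1` are not axisymmetric
-/

open Set Real Filter

open scoped ContDiff Topology

namespace Pool.Agent.H29.GradF

open Pool.Agent.H29.Grad

variable {l : ℝ}

/-- The point `(c, s / l, 0)`. -/
noncomputable def pt (l c s : ℝ) : R3 := ![c, s / l, 0]

theorem pt_facts (hl : l ≠ 0) {c s : ℝ} (h : c ^ 2 + s ^ 2 = 1) :
    pt l c s ∈ dom l ∧ Q l (pt l c s) = 1 ∧ L l (pt l c s) = 1 ∧ U l (pt l c s) = -s ∧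
      V l (pt l c s) = c := by
  have h0 : pt l c s 0 = c := rfl
  have h1 : l * pt l c s 1 = s := by
    change l * (s / l) = s
    field_simp
  have h2 : pt l c s 2 = 0 := rfl
  have hQ : Q l (pt l c s) = 1 := by
    rw [Q, ← mul_pow, h0, h1]; linarith
  have hD : D l (pt l c s) = 1 := by
    rw [D, hQ, h2]; norm_num
  have hL : L l (pt l c s) = 1 := by
    rw [L, hD, Real.sqrt_one]
  refine ⟨?_, hQ, hL, ?_, ?_⟩
  · change 0 < D l (pt l c s)
    rw [hD]; norm_num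
  · rw [U, hQ, hL, h0, h1, h2]; ring
  · rw [V, hQ, hL, h0, mul_assoc 2 l, h1, h2]; ring

theorem pt_mem (hl : 1 / 2 < l ^ 2) {c s : ℝ} (h : c ^ 2 + s ^ 2 = 1) :
    pt l c s ∈ tor l (1 / 2) := by
  have hl0 := ne_zero_of_half hl
  obtain ⟨h1, h2, h3, h4, h5⟩ := pt_facts hl0 h
  refine ⟨h1, ?_⟩
  have e1 : l * pt l c s 1 = s := by
    change l * (s / l) = s
    field_simp
  have hw : wmap l (pt l c s) = 0 := by
    apply Complex.ext
    · change (pt l c s 0 ^ 2 - (l * pt l c s 1) ^ 2 + U l (pt l c s) ^ 2 - V l (pt l c s) ^ 2) / 2 = 0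
      rw [h4, h5, e1]
      change (c ^ 2 - s ^ 2 + (-s) ^ 2 - c ^ 2) / 2 = 0
      ring
    · change pt l c s 0 * (l * pt l c s 1) + U l (pt l c s) * V l (pt l c s) = 0
      rw [h4, h5, e1]
      change c * s + (-s) * c = 0
      ring
  rw [g, hw, zero_sub, norm_neg, norm_cen]
  exact (beta_lt hl).le

theorem fderiv_pressure_pt (hl : l ≠ 0) (hl1 : l ^ 2 ≠ 1) {c s : ℝ} (h : c ^ 2 + s ^ 2 = 1) (v : R3)
    (hv : fderiv ℝ (pressure l) (pt l c s) v = 0) :
    c * (c ^ 2 - s ^ 2) * v 0 + l * s * (c ^ 2 - s ^ 2) * v 1 + 2 * s * c * v 2 = 0 := by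
  obtain ⟨h1, h2, h3, h4, h5⟩ := pt_facts hl h
  have h6 := hasFDerivAt_pressure h1 v
  obtain ⟨h7, h8⟩ := L_mul_deriv h1 v
  have e0 : pt l c s 0 = c := rfl
  have e1 : pt l c s 1 = s / l := rfl
  have e2 : pt l c s 2 = 0 := rfl
  rw [hv, fderiv_Q, h2, h4, h5, e0, e1, e2] at h6
  rw [h3, h4, h5, e0, e1, one_mul] at h7 h8
  rw [h7, h8] at h6
  have h9 : (l ^ 2 - 1) * (c * (c ^ 2 - s ^ 2) * v 0 + l * s * (c ^ 2 - s ^ 2) * v 1 +
      2 * s * c * v 2) = 0 := by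
    field_simp at h6
    linear_combination h6 + (l ^ 2 * c * v 0 + l * s * v 1) * h
  exact (mul_eq_zero.1 h9).resolve_left (sub_ne_zero.2 hl1)

theorem not_axisymmetric (hl : 1 / 2 < l ^ 2) (hl1 : l ^ 2 ≠ 1) :
    ¬ IsAxisymmetric (tor l (1 / 2)) (field l) (pressure l) := by
  rintro ⟨b, a, hb, -, -, hp⟩
  have hl0 := ne_zero_of_half hl
  have key : ∀ c s : ℝ, c ^ 2 + s ^ 2 = 1 →
      (c ^ 2 - s ^ 2) * (c * (b 2 * a 1 - b 1 * a 2) + l * s * (b 0 * a 2 - b 2 * a 0)) +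
      c * s * ((c ^ 2 - s ^ 2) * (b 2 * (l - 1 / l)) + 2 * s * (b 0 / l) - 2 * c * b 1 +
        2 * (b 1 * a 0 - b 0 * a 1)) = 0 := by
    intro c s h
    have h1 := fderiv_pressure_pt hl0 hl1 h _ (hp _ (pt_mem hl h))
    rw [cross_apply] at h1
    have h2 : c * (c ^ 2 - s ^ 2) * (b 1 * (0 - a 2) - b 2 * (s / l - a 1)) +
      l * s * (c ^ 2 - s ^ 2) * (b 2 * (c - a 0) - b 0 * (0 - a 2)) +
      2 * s * c * (b 0 * (s / l - a 1) - b 1 * (c - a 0)) = 0 := h1
    linear_combination h2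
  have k1 := key 1 0 (by norm_num)
  have k2 := key 0 1 (by norm_num)
  have k3 := key (3 / 5) (4 / 5) (by norm_num)
  have k4 := key (-(3 / 5)) (4 / 5) (by norm_num)
  have k5 := key (3 / 5) (-(4 / 5)) (by norm_num)
  have k6 := key (-(3 / 5)) (-(4 / 5)) (by norm_num)
  have k7 := key (4 / 5) (3 / 5) (by norm_num)
  generalize b 2 * a 1 - b 1 * a 2 = P at *
  have k2' : l * (b 0 * a 2 - b 2 * a 0) = 0 := by linarith
  generalize b 0 * a 2 - b 2 * a 0 = R at *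
  generalize b 1 * a 0 - b 0 * a 1 = N at *
  have hP : P = 0 := by linarith
  have hR : R = 0 := (mul_eq_zero.1 k2').resolve_left hl0
  subst hP hR
  have hA : b 0 / l = 0 := by linarith
  have hb1 : b 1 = 0 := by linarith
  have hB : b 2 * (l - 1 / l) = 0 := by linarith
  apply hb
  have hb0 : b 0 = 0 := (div_eq_zero_iff.1 hA).resolve_right hl0
  have hb2 : b 2 = 0 := by
    refine (mul_eq_zero.1 hB).resolve_right fun h => hl1 ?_
    field_simp at h
    linarith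
  ext i
  fin_cases i
  · exact hb0
  · exact hb1
  · exact hb2

theorem solidTorus_eq (hl : l ≠ 0) : solidTorus l = tor l (1 / 2) := by
  ext x
  constructor
  · rintro ⟨h1, h2⟩
    refine ⟨h1, ?_⟩
    rw [pressure_g hl h1] at h2
    nlinarith [norm_nonneg (g l x)]
  · rintro ⟨h1, h2⟩
    refine ⟨h1, ?_⟩
    rw [pressure_g hl h1]
    nlinarith [norm_nonneg (g l x)]

theorem g_ne_zero (hl : l ≠ 0) {x : R3} (hx : x ∈ dom l) (h : gradient (pressure l) x ≠ 0) :
    0 < ‖g l x‖ := by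
  rcases (norm_nonneg (g l x)).eq_or_lt with h0 | h0
  · exfalso
    apply h
    have hmax : IsLocalMax (pressure l) x := by
      filter_upwards [isOpen_dom.mem_nhds hx] with y hy
      rw [pressure_g hl hx, pressure_g hl hy, ← h0]
      nlinarith [norm_nonneg (g l y)]
    funext i
    change fderiv ℝ (pressure l) x (Pi.single i 1) = 0
    rw [hmax.fderiv_eq_zero]
    rfl
  · exact h0

end Pool.Agent.H29.GradF
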