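import Pool.Agent.H29.GradF.Equilibrium

/-!
# A global parametrisation of the domain

The domain of the field is parametrised by `(w, θ)`, `|w| < 1`, in such a way that the field is
`∂/∂θ` and the pressure is a function of `|w + (1 - l⁻²) / 2|`.
-/

open Set Real

open scoped ContDiff Topology

namespace Pool.Agent.H29.GradF

open Pool.Agent.H29.Grad

variable {l : ℝ}

/-- `|w|²`. -/
def nsq (w : ℂ) : ℝ := w.re ^ 2 + w.im ^ 2

theorem nsq_eq (w : ℂ) : nsq w = ‖w‖ ^ 2 := by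
  rw [← Complex.normSq_eq_norm_sq, Complex.normSq_apply, nsq]; ring

theorem nsq_lt {w : ℂ} (h : ‖w‖ < 1) : nsq w < 1 := by
  rw [nsq_eq]
  nlinarith [norm_nonneg w]

/-- `ℓ = √(1 - |w|²)`. -/
noncomputable def ell (w : ℂ) : ℝ := √(1 - nsq w)

/-- `κ = √((1 + ℓ) / 2)`. -/
noncomputable def kap (w : ℂ) : ℝ := √((1 + ell w) / 2)

theorem ell_nonneg (w : ℂ) : 0 ≤ ell w := Real.sqrt_nonneg _

theorem nsq_le {w : ℂ} (h : ‖w‖ ≤ 1) : nsq w ≤ 1 := by
  rw [nsq_eq]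
  nlinarith [norm_nonneg w]

theorem ell_sq {w : ℂ} (h : ‖w‖ ≤ 1) : ell w ^ 2 = 1 - nsq w :=
  Real.sq_sqrt (by linarith [nsq_le h])

theorem kap_pos (w : ℂ) : 0 < kap w := Real.sqrt_pos.2 (by linarith [ell_nonneg w])

theorem kap_sq (w : ℂ) : kap w ^ 2 = (1 + ell w) / 2 := Real.sq_sqrt (by linarith [ell_nonneg w])

/-- First auxiliary function. -/
noncomputable def ma (w : ℂ) (θ : ℝ) : ℝ := (w.re * cos θ + w.im * sin θ) / (2 * kap w)

/-- Second auxiliary function. -/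
noncomputable def mb (w : ℂ) (θ : ℝ) : ℝ := (w.im * cos θ - w.re * sin θ) / (2 * kap w)

/-- Third component of the parametrisation. -/
noncomputable def pz (w : ℂ) (θ : ℝ) : ℝ :=
  (w.re * (2 * sin θ * cos θ) - w.im * (cos θ ^ 2 - sin θ ^ 2)) / 2

/-- The parametrisation. -/
noncomputable def Phi (l : ℝ) (q : ℂ × ℝ) : R3 :=
  ![kap q.1 * cos q.2 + ma q.1 q.2, (kap q.1 * sin q.2 + mb q.1 q.2) / l, pz q.1 q.2]

theorem Phi_zero (w : ℂ) (θ : ℝ) : Phi l (w, θ) 0 = kap w * cos θ + ma w θ := rfl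
theorem Phi_one' (w : ℂ) (θ : ℝ) : Phi l (w, θ) 1 = (kap w * sin θ + mb w θ) / l := rfl
theorem Phi_one (hl : l ≠ 0) (w : ℂ) (θ : ℝ) : l * Phi l (w, θ) 1 = kap w * sin θ + mb w θ := by
  rw [Phi_one']; field_simp
theorem Phi_two (w : ℂ) (θ : ℝ) : Phi l (w, θ) 2 = pz w θ := rfl

/-- The algebraic relations between the auxiliary functions. -/
theorem m_rel {w : ℂ} (h : ‖w‖ ≤ 1) (θ : ℝ) :
    kap w ^ 2 + ma w θ ^ 2 + mb w θ ^ 2 = 1 ∧ w.re = 2 * kap w * (ma w θ * cos θ - mb w θ * sin θ) ∧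
    w.im = 2 * kap w * (ma w θ * sin θ + mb w θ * cos θ) ∧ ell w = 2 * kap w ^ 2 - 1 ∧
    pz w θ = kap w * (ma w θ * sin θ - mb w θ * cos θ) := by
  have hk := (kap_pos w).ne'
  have hk2 := kap_sq w
  have he := ell_sq h
  have hcs := Real.sin_sq_add_cos_sq θ
  have h1 : 2 * kap w * ma w θ = w.re * cos θ + w.im * sin θ := by
    unfold ma; field_simp
  have h2 : 2 * kap w * mb w θ = w.im * cos θ - w.re * sin θ := by
    unfold mb; field_simp
  have hre : w.re = 2 * kap w * (ma w θ * cos θ - mb w θ * sin θ) := by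
    linear_combination (-w.re) * hcs - cos θ * h1 + sin θ * h2
  have him : w.im = 2 * kap w * (ma w θ * sin θ + mb w θ * cos θ) := by
    linear_combination (-w.im) * hcs - sin θ * h1 - cos θ * h2
  have hell : ell w = 2 * kap w ^ 2 - 1 := by linarith
  refine ⟨?_, hre, him, hell, ?_⟩
  · have h3 : (2 * kap w * ma w θ) ^ 2 + (2 * kap w * mb w θ) ^ 2 = nsq w := by
      rw [h1, h2, nsq]
      linear_combination (w.re ^ 2 + w.im ^ 2) * hcs
    have h4 : 4 * kap w ^ 2 * (kap w ^ 2 + ma w θ ^ 2 + mb w θ ^ 2 - 1) = 0 := by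
      have h5 : (2 * kap w ^ 2 - 1) ^ 2 = 1 - nsq w := by rw [← hell]; exact he
      linear_combination h3 + h5
    have h6 : 4 * kap w ^ 2 ≠ 0 := by positivity
    have := (mul_eq_zero.1 h4).resolve_left h6
    linarith
  · unfold pz
    rw [show w.re * (2 * sin θ * cos θ) - w.im * (cos θ ^ 2 - sin θ ^ 2) =
      sin θ * (w.re * cos θ + w.im * sin θ) - cos θ * (w.im * cos θ - w.re * sin θ) by ring,
      ← h1, ← h2]
    ring

theorem Q_Phi (hl : l ≠ 0) {w : ℂ} (h : ‖w‖ ≤ 1) (θ : ℝ) :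
    Q l (Phi l (w, θ)) = 1 + 2 * kap w * (ma w θ * cos θ + mb w θ * sin θ) := by
  obtain ⟨h1, -, -, -, -⟩ := m_rel h θ
  have hcs := Real.sin_sq_add_cos_sq θ
  rw [Q, ← mul_pow, Phi_zero, Phi_one hl]
  linear_combination h1 + kap w ^ 2 * hcs

theorem D_Phi (hl : l ≠ 0) {w : ℂ} (h : ‖w‖ ≤ 1) (θ : ℝ) : D l (Phi l (w, θ)) = 1 - nsq w := by
  obtain ⟨h1, h2, h3, h4, h5⟩ := m_rel h θ
  have hcs := Real.sin_sq_add_cos_sq θ
  have he := ell_sq h
  rw [D, Q_Phi hl h, Phi_two, h5, ← he, h4]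
  have hm : ma w θ ^ 2 + mb w θ ^ 2 = 1 - kap w ^ 2 := by linarith
  linear_combination (-4 * kap w ^ 2 * (ma w θ ^ 2 + mb w θ ^ 2)) * hcs - 4 * kap w ^ 2 * hm

theorem Phi_mem_dom (hl : l ≠ 0) {w : ℂ} (h : ‖w‖ < 1) (θ : ℝ) : Phi l (w, θ) ∈ dom l := by
  change 0 < D l (Phi l (w, θ))
  rw [D_Phi hl h.le]
  linarith [nsq_lt h]

theorem L_Phi (hl : l ≠ 0) {w : ℂ} (h : ‖w‖ < 1) (θ : ℝ) : L l (Phi l (w, θ)) = ell w := by
  rw [L, D_Phi hl h.le, ell]

theorem U_Phi (hl : l ≠ 0) {w : ℂ} (h : ‖w‖ < 1) (θ : ℝ) :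
    U l (Phi l (w, θ)) = -kap w * sin θ + mb w θ := by
  have hQ := (Q_pos (Phi_mem_dom hl h θ)).ne'
  obtain ⟨h1, h2, h3, h4, h5⟩ := m_rel h.le θ
  have hcs := Real.sin_sq_add_cos_sq θ
  rw [U, div_eq_iff hQ, L_Phi hl h, Q_Phi hl h.le, Phi_zero, Phi_one hl, Phi_two, h5, h4]
  linear_combination 2 * kap w ^ 2 * mb w θ * hcs - 2 * kap w * sin θ * h1

theorem V_Phi (hl : l ≠ 0) {w : ℂ} (h : ‖w‖ < 1) (θ : ℝ) :
    V l (Phi l (w, θ)) = kap w * cos θ - ma w θ := by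
  have hQ := (Q_pos (Phi_mem_dom hl h θ)).ne'
  obtain ⟨h1, h2, h3, h4, h5⟩ := m_rel h.le θ
  have hcs := Real.sin_sq_add_cos_sq θ
  rw [V, div_eq_iff hQ, L_Phi hl h, Q_Phi hl h.le, Phi_zero, mul_assoc 2 l, Phi_one hl, Phi_two, h5, h4]
  linear_combination 2 * kap w * cos θ * h1 - 2 * kap w ^ 2 * ma w θ * hcs

/-- The complex function `w = (Z² + W²) / 2` on the domain, `Z = x + i l y`, `W = U + i V`. -/
noncomputable def wmap (l : ℝ) (x : R3) : ℂ :=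
  ⟨(x 0 ^ 2 - (l * x 1) ^ 2 + U l x ^ 2 - V l x ^ 2) / 2, x 0 * (l * x 1) + U l x * V l x⟩

/-- The angular coordinate `e^{iθ}` on the domain. -/
noncomputable def emap (l : ℝ) (x : R3) : ℂ :=
  ⟨(x 0 + V l x) / (2 * √((1 + L l x) / 2)), (l * x 1 - U l x) / (2 * √((1 + L l x) / 2))⟩

theorem nsq_wmap {x : R3} (hx : x ∈ dom l) : nsq (wmap l x) = 1 - L l x ^ 2 := by
  have hE := rel_E hx
  have hL := rel_L hx
  have hQ : Q l x = x 0 ^ 2 + l ^ 2 * x 1 ^ 2 := rfl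
  rw [hQ] at hE
  rw [nsq, wmap, ← hL]
  simp only
  linear_combination (U l x ^ 2 + V l x ^ 2 + x 0 ^ 2 + l ^ 2 * x 1 ^ 2 + 2) / 4 * hE

theorem norm_wmap {x : R3} (hx : x ∈ dom l) : ‖wmap l x‖ < 1 := by
  have h := nsq_wmap hx
  rw [nsq_eq] at h
  have hL := L_pos hx
  nlinarith [norm_nonneg (wmap l x)]

theorem wmap_Phi (hl : l ≠ 0) {w : ℂ} (h : ‖w‖ < 1) (θ : ℝ) : wmap l (Phi l (w, θ)) = w := by
  obtain ⟨-, h2, h3, -, -⟩ := m_rel h.le θ
  apply Complex.ext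
  · rw [wmap, U_Phi hl h, V_Phi hl h, Phi_zero, Phi_one hl]
    simp only
    linear_combination -h2
  · rw [wmap, U_Phi hl h, V_Phi hl h, Phi_zero, Phi_one hl]
    simp only
    linear_combination -h3

theorem emap_Phi (hl : l ≠ 0) {w : ℂ} (h : ‖w‖ < 1) (θ : ℝ) :
    emap l (Phi l (w, θ)) = ⟨cos θ, sin θ⟩ := by
  have hk := (kap_pos w).ne'
  apply Complex.ext
  · rw [emap, U_Phi hl h, V_Phi hl h, Phi_zero, Phi_one hl, L_Phi hl h]
    simp only
    change _ / (2 * kap w) = _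
    field_simp
    ring
  · rw [emap, U_Phi hl h, V_Phi hl h, Phi_zero, Phi_one hl, L_Phi hl h]
    simp only
    change _ / (2 * kap w) = _
    field_simp
    ring

theorem ell_wmap {x : R3} (hx : x ∈ dom l) : ell (wmap l x) = L l x := by
  rw [ell, nsq_wmap hx, sub_sub_cancel, Real.sqrt_sq (L_pos hx).le]

theorem kap_wmap {x : R3} (hx : x ∈ dom l) : kap (wmap l x) = √((1 + L l x) / 2) := by
  rw [kap, ell_wmap hx]

/-- Every point of the domain is in the range of the parametrisation. -/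
theorem exists_Phi (hl : l ≠ 0) {x : R3} (hx : x ∈ dom l) :
    ∃ θ ∈ Icc (-π) π, Phi l (wmap l x, θ) = x := by
  have hE := rel_E hx
  have hL := rel_L hx
  have hW := rel_W hx
  have hQ : Q l x = x 0 ^ 2 + l ^ 2 * x 1 ^ 2 := rfl
  rw [hQ] at hE
  have hLp := L_pos hx
  set k := √((1 + L l x) / 2) with hk
  have hkp : 0 < k := Real.sqrt_pos.2 (by linarith)
  have hk2 : k ^ 2 = (1 + L l x) / 2 := Real.sq_sqrt (by linarith)
  have hkap : kap (wmap l x) = k := kap_wmap hx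
  have hunit : ((x 0 + V l x) / (2 * k)) ^ 2 + ((l * x 1 - U l x) / (2 * k)) ^ 2 = 1 := by
    rw [div_pow, div_pow, ← add_div, div_eq_one_iff_eq (by positivity)]
    linear_combination hE + 2 * hL - 4 * hk2
  obtain ⟨θ, hθ, hc, hs⟩ : ∃ θ ∈ Icc (-π) π, cos θ = (x 0 + V l x) / (2 * k) ∧
      sin θ = (l * x 1 - U l x) / (2 * k) := by
    have hn : ‖(⟨(x 0 + V l x) / (2 * k), (l * x 1 - U l x) / (2 * k)⟩ : ℂ)‖ = 1 := by
      have h1 : ‖(⟨(x 0 + V l x) / (2 * k), (l * x 1 - U l x) / (2 * k)⟩ : ℂ)‖ ^ 2 = 1 := by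
        rw [← nsq_eq, nsq]; exact hunit
      nlinarith [norm_nonneg (⟨(x 0 + V l x) / (2 * k), (l * x 1 - U l x) / (2 * k)⟩ : ℂ)]
    have hne : (⟨(x 0 + V l x) / (2 * k), (l * x 1 - U l x) / (2 * k)⟩ : ℂ) ≠ 0 := by
      intro h0
      rw [h0, norm_zero] at hn
      exact one_ne_zero hn.symm
    refine ⟨Complex.arg ⟨(x 0 + V l x) / (2 * k), (l * x 1 - U l x) / (2 * k)⟩,
      Ioc_subset_Icc_self (Complex.arg_mem_Ioc _), ?_, ?_⟩
    · rw [Complex.cos_arg hne, hn, div_one]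
    · rw [Complex.sin_arg, hn, div_one]
  have hc' : 2 * k * cos θ = x 0 + V l x := by rw [hc]; field_simp
  have hs' : 2 * k * sin θ = l * x 1 - U l x := by rw [hs]; field_simp
  have hre : (wmap l x).re = (x 0 ^ 2 - (l * x 1) ^ 2 + U l x ^ 2 - V l x ^ 2) / 2 := rfl
  have him : (wmap l x).im = x 0 * (l * x 1) + U l x * V l x := rfl
  have h2k : 2 * k ≠ 0 := by positivity
  have e1 : (wmap l x).re * cos θ + (wmap l x).im * sin θ = k * (x 0 - V l x) := by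
    apply mul_left_cancel₀ h2k
    rw [hre, him]
    linear_combination (x 0 ^ 2 - l ^ 2 * x 1 ^ 2 + U l x ^ 2 - V l x ^ 2) / 2 * hc' +
      (l * x 0 * x 1 + U l x * V l x) * hs' + (x 0 - V l x) / 2 * hE + (x 0 - V l x) * hL -
      2 * (x 0 - V l x) * hk2
  have e2 : (wmap l x).im * cos θ - (wmap l x).re * sin θ = k * (l * x 1 + U l x) := by
    apply mul_left_cancel₀ h2k
    rw [hre, him]
    linear_combination (l * x 0 * x 1 + U l x * V l x) * hc' -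
      (x 0 ^ 2 - l ^ 2 * x 1 ^ 2 + U l x ^ 2 - V l x ^ 2) / 2 * hs' + (l * x 1 + U l x) / 2 * hE +
      (l * x 1 + U l x) * hL - 2 * (l * x 1 + U l x) * hk2
  have hma : ma (wmap l x) θ = (x 0 - V l x) / 2 := by
    rw [ma, hkap, e1]; field_simp
  have hmb : mb (wmap l x) θ = (l * x 1 + U l x) / 2 := by
    rw [mb, hkap, e2]; field_simp
  refine ⟨θ, hθ, ?_⟩
  ext i
  fin_cases i
  · change Phi l (wmap l x, θ) 0 = x 0
    rw [Phi_zero, hkap, hma]
    linear_combination hc' / 2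
  · change Phi l (wmap l x, θ) 1 = x 1
    apply mul_left_cancel₀ hl
    rw [Phi_one hl, hkap, hmb]
    linear_combination hs' / 2
  · change Phi l (wmap l x, θ) 2 = x 2
    rw [Phi_two]
    have h3 : pz (wmap l x) θ = (sin θ * ((wmap l x).re * cos θ + (wmap l x).im * sin θ) -
        cos θ * ((wmap l x).im * cos θ - (wmap l x).re * sin θ)) / 2 := by
      unfold pz; ring
    rw [h3, e1, e2]
    linear_combination (x 0 - V l x) / 4 * hs' - (l * x 1 + U l x) / 4 * hc' - hW / 2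

end Pool.Agent.H29.GradF
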