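import Pool.Agent.H29.GradF.Nested

/-!
# The rotational transform is `2` on every pressure surface
-/

open Set Real Filter

open scoped ContDiff Topology

namespace Pool.Agent.H29.GradF

open Pool.Agent.H29.Grad

variable {l : ℝ}

theorem continuous_kap : Continuous kap := by
  unfold kap ell nsq
  fun_prop

theorem continuous_Phi : Continuous (Phi l) := by
  have hre : Continuous (fun q : ℂ × ℝ => q.1.re) := Complex.continuous_re.comp continuous_fst
  have him : Continuous (fun q : ℂ × ℝ => q.1.im) := Complex.continuous_im.comp continuous_fst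
  have hc : Continuous (fun q : ℂ × ℝ => cos q.2) := Real.continuous_cos.comp continuous_snd
  have hs : Continuous (fun q : ℂ × ℝ => sin q.2) := Real.continuous_sin.comp continuous_snd
  have hk : Continuous (fun q : ℂ × ℝ => kap q.1) := continuous_kap.comp continuous_fst
  have hk0 : ∀ q : ℂ × ℝ, 2 * kap q.1 ≠ 0 := fun q => by
    have := kap_pos q.1
    positivity
  have hma : Continuous (fun q : ℂ × ℝ => ma q.1 q.2) := by
    unfold ma
    exact ((hre.mul hc).add (him.mul hs)).div (continuous_const.mul hk) hk0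
  have hmb : Continuous (fun q : ℂ × ℝ => mb q.1 q.2) := by
    unfold mb
    exact ((him.mul hc).sub (hre.mul hs)).div (continuous_const.mul hk) hk0
  refine continuous_pi fun i => ?_
  fin_cases i
  · exact (hk.mul hc).add hma
  · exact ((hk.mul hs).add hmb).div_const l
  · change Continuous (fun q : ℂ × ℝ => (q.1.re * (2 * sin q.2 * cos q.2) -
      q.1.im * (cos q.2 ^ 2 - sin q.2 ^ 2)) / 2)
    exact ((hre.mul ((continuous_const.mul hs).mul hc)).sub
      (him.mul ((hc.pow 2).sub (hs.pow 2)))).div_const 2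

/-- The point of the boundary case `w = e^{i (2 θ - π)}` of the parametrisation is the origin. -/
theorem Phi_pinch (θ : ℝ) : Phi l (Complex.exp (((2 * θ - π : ℝ) : ℂ) * Complex.I), θ) = 0 := by
  set w := Complex.exp (((2 * θ - π : ℝ) : ℂ) * Complex.I) with hw
  have hre : w.re = -cos (2 * θ) := by
    rw [hw, Complex.exp_ofReal_mul_I_re, Real.cos_sub_pi]
  have him : w.im = -sin (2 * θ) := by
    rw [hw, Complex.exp_ofReal_mul_I_im, Real.sin_sub_pi]
  have hn : nsq w = 1 := by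
    rw [nsq, hre, him]
    nlinarith [Real.sin_sq_add_cos_sq (2 * θ)]
  have hell : ell w = 0 := by
    rw [ell, hn, sub_self, Real.sqrt_zero]
  have hk : kap w ^ 2 = 1 / 2 := by
    rw [kap_sq, hell, add_zero]
  have hk0 := (kap_pos w).ne'
  have hcs := Real.sin_sq_add_cos_sq θ
  have h1 : ma w θ = -(kap w * cos θ) := by
    rw [ma, div_eq_iff (by positivity), hre, him, Real.cos_two_mul, Real.sin_two_mul]
    linear_combination (2 * cos θ) * hk - 2 * cos θ * hcs
  have h2 : mb w θ = -(kap w * sin θ) := by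
    rw [mb, div_eq_iff (by positivity), hre, him, Real.cos_two_mul, Real.sin_two_mul]
    linear_combination (2 * sin θ) * hk
  ext i
  fin_cases i
  · change kap w * cos θ + ma w θ = 0
    rw [h1]; ring
  · change (kap w * sin θ + mb w θ) / l = 0
    rw [h2, add_neg_cancel, zero_div]
  · change pz w θ = 0
    rw [pz, hre, him, Real.cos_two_mul, Real.sin_two_mul]
    linear_combination (-(sin θ * cos θ)) * hcs


/-- The angular coordinates on the torus `|w + β| = ρ`. -/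
noncomputable def Psi (l ρ : ℝ) (q : ℝ × ℝ) : R3 :=
  Phi l (cen l + ρ * Complex.exp (((2 * q.1 - q.2 : ℝ) : ℂ) * Complex.I), q.1)

theorem norm_rho {ρ : ℝ} (hρ0 : 0 ≤ ρ) (t : ℝ) : ‖(ρ : ℂ) * Complex.exp ((t : ℂ) * Complex.I)‖ = ρ := by
  rw [norm_mul, Complex.norm_exp_ofReal_mul_I, Complex.norm_real, mul_one, Real.norm_eq_abs,
    abs_of_nonneg hρ0]

/-- The first stage of the homotopy pushes a longitude away from the solid torus. -/
theorem stage_one (hl : l ≠ 0) {ρ : ℝ} (hρ0 : 0 < ρ) (hρ : ρ < rad l) {s t θ : ℝ}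
    (hs : s ∈ Icc (0 : ℝ) 1) :
    Phi l ((1 - s : ℝ) * (cen l + ρ * Complex.exp ((t : ℂ) * Complex.I)) +
      (s : ℝ) * Complex.exp ((t : ℂ) * Complex.I), θ) ∈ (interior (tor l ρ))ᶜ := by
  obtain ⟨hs0, hs1⟩ := hs
  set e := Complex.exp ((t : ℂ) * Complex.I) with he
  have hen : ‖e‖ = 1 := Complex.norm_exp_ofReal_mul_I t
  set w : ℂ := (1 - s : ℝ) * (cen l + ρ * e) + (s : ℝ) * e with hw
  have hb : ‖cen l‖ = |beta l| := norm_cen
  rw [rad] at hρ
  have hw1 : ‖w‖ ≤ (1 - s) * (|beta l| + ρ) + s := by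
    have h1 : ‖cen l + ρ * e‖ ≤ |beta l| + ρ := by
      refine (norm_add_le _ _).trans ?_
      rw [hb, norm_rho hρ0.le]
    have h2 : ‖((1 - s : ℝ) : ℂ) * (cen l + ρ * e)‖ ≤ (1 - s) * (|beta l| + ρ) := by
      rw [norm_mul, Complex.norm_real, Real.norm_eq_abs, abs_of_nonneg (by linarith)]
      exact mul_le_mul_of_nonneg_left h1 (by linarith)
    have h3 : ‖((s : ℝ) : ℂ) * e‖ = s := by
      rw [norm_mul, hen, Complex.norm_real, Real.norm_eq_abs, abs_of_nonneg hs0, mul_one]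
    calc ‖w‖ ≤ ‖((1 - s : ℝ) : ℂ) * (cen l + ρ * e)‖ + ‖((s : ℝ) : ℂ) * e‖ := norm_add_le _ _
      _ ≤ _ := by rw [h3]; linarith
  have hw2 : ‖w‖ ≤ 1 := by nlinarith
  rw [interior_tor hl hρ0]
  rintro ⟨hd, hg⟩
  have hlt : ‖w‖ < 1 := by
    have h1 : 0 < D l (Phi l (w, θ)) := hd
    rw [D_Phi hl hw2, nsq_eq] at h1
    nlinarith [norm_nonneg w]
  rw [g_Phi hl hlt] at hg
  have h5 : w - cen l = (((1 - s) * ρ + s : ℝ) : ℂ) * e - (s : ℝ) * cen l := by
    rw [hw]; push_cast; ring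
  have h6 : ‖(((1 - s) * ρ + s : ℝ) : ℂ) * e‖ = (1 - s) * ρ + s := by
    have h0 : 0 ≤ (1 - s) * ρ + s := by
      have := mul_nonneg (by linarith : (0 : ℝ) ≤ 1 - s) hρ0.le
      linarith
    rw [norm_mul, hen, Complex.norm_real, Real.norm_eq_abs, abs_of_nonneg h0, mul_one]
  have h7 : ‖((s : ℝ) : ℂ) * cen l‖ = s * |beta l| := by
    rw [norm_mul, hb, Complex.norm_real, Real.norm_eq_abs, abs_of_nonneg hs0]
  have h8 := norm_sub_norm_le ((((1 - s) * ρ + s : ℝ) : ℂ) * e) ((s : ℝ) * cen l)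
  rw [← h5, h6, h7] at h8
  nlinarith

/-- In the second stage the longitude stays on the boundary of the domain. -/
theorem stage_two (hl : l ≠ 0) {ρ : ℝ} {t θ : ℝ} (hρ0 : 0 < ρ) :
    Phi l (Complex.exp ((t : ℂ) * Complex.I), θ) ∈ (interior (tor l ρ))ᶜ := by
  have hen : ‖Complex.exp ((t : ℂ) * Complex.I)‖ = 1 := Complex.norm_exp_ofReal_mul_I t
  rw [interior_tor hl hρ0]
  rintro ⟨hd, -⟩
  have h1 : 0 < D l (Phi l (Complex.exp ((t : ℂ) * Complex.I), θ)) := hd
  rw [D_Phi hl hen.le, nsq_eq, hen] at h1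
  norm_num at h1

theorem longitude_contractible (hl : l ≠ 0) {ρ : ℝ} (hρ0 : 0 < ρ) (hρ : ρ < rad l) (φ : ℝ) :
    ContractibleIn (fun θ => Psi l ρ (θ, φ)) (interior (tor l ρ))ᶜ := by
  set s1 : ℝ → ℝ := fun s => min (2 * s) 1 with hs1
  set s2 : ℝ → ℝ := fun s => max (2 * s - 1) 0 with hs2
  set ψ : ℝ × ℝ → ℝ := fun p => 2 * p.2 - ((1 - s2 p.1) * φ + s2 p.1 * π) with hψ
  have h0 : s1 0 = 0 ∧ s2 0 = 0 := by
    rw [hs1, hs2]; norm_num
  have h1 : s1 1 = 1 ∧ s2 1 = 1 := by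
    rw [hs1, hs2]; norm_num
  refine ⟨fun p => Phi l ((1 - s1 p.1 : ℝ) * (cen l + ρ * Complex.exp ((ψ p : ℂ) * Complex.I)) +
      (s1 p.1 : ℝ) * Complex.exp ((ψ p : ℂ) * Complex.I), p.2), ?_, ?_, ?_, ?_, 0, ?_⟩
  · have hc1 : Continuous s1 := by rw [hs1]; fun_prop
    have hc2 : Continuous s2 := by rw [hs2]; fun_prop
    have hc3 : Continuous ψ := by rw [hψ]; fun_prop
    have hc4 : Continuous (fun p : ℝ × ℝ => ((1 - s1 p.1 : ℝ) : ℂ) *
        (cen l + ρ * Complex.exp ((ψ p : ℂ) * Complex.I)) +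
        (s1 p.1 : ℝ) * Complex.exp ((ψ p : ℂ) * Complex.I)) := by fun_prop
    exact (continuous_Phi.comp (hc4.prodMk continuous_snd)).continuousOn
  · intro t
    simp only [Psi, hψ, h0.1, h0.2]
    norm_num
  · intro s _ t
    have hper : Complex.exp ((ψ (s, t + 2 * π) : ℂ) * Complex.I) =
        Complex.exp ((ψ (s, t) : ℂ) * Complex.I) := by
      have h2 : ((ψ (s, t + 2 * π) : ℝ) : ℂ) * Complex.I = (ψ (s, t) : ℂ) * Complex.I +
          ((2 : ℤ) : ℂ) * (2 * π * Complex.I) := by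
        simp only [hψ]
        push_cast
        ring
      rw [h2, Complex.exp_add, Complex.exp_int_mul_two_pi_mul_I, mul_one]
    simp only [hper]
    exact Phi_periodic _ _
  · intro s hs t
    by_cases hc : s ≤ 1 / 2
    · have e1 : s1 s = 2 * s := by simp only [hs1]; exact min_eq_left (by linarith)
      simp only
      exact stage_one hl hρ0 hρ ⟨by rw [e1]; linarith [hs.1], by rw [e1]; linarith⟩
    · have e1 : s1 s = 1 := by simp only [hs1]; exact min_eq_right (by linarith)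
      simp only [e1]
      norm_num only [sub_self, Complex.ofReal_zero, zero_mul, zero_add, Complex.ofReal_one, one_mul]
      exact stage_two hl hρ0
  · intro t
    simp only [h1.1, hψ, h1.2]
    norm_num only [sub_self, Complex.ofReal_zero, zero_mul, zero_add, Complex.ofReal_one, one_mul]
    exact Phi_pinch t

theorem meridian_contractible (hl : l ≠ 0) {ρ : ℝ} (hρ0 : 0 < ρ) (hρ : ρ < rad l) (θ : ℝ) :
    ContractibleIn (fun φ => Psi l ρ (θ, φ)) (tor l ρ) := by
  refine ⟨fun p => Phi l (cen l + ((1 - p.1) * ρ : ℝ) *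
    Complex.exp (((2 * θ - p.2 : ℝ) : ℂ) * Complex.I), θ), ?_, ?_, ?_, ?_, Phi l (cen l, θ), ?_⟩
  · have hc : Continuous (fun p : ℝ × ℝ => cen l + (((1 - p.1) * ρ : ℝ) : ℂ) *
        Complex.exp (((2 * θ - p.2 : ℝ) : ℂ) * Complex.I)) := by fun_prop
    exact (continuous_Phi.comp (hc.prodMk continuous_const)).continuousOn
  · intro t
    simp only [Psi]
    norm_num
  · intro s _ t
    have h2 : ((2 * θ - (t + 2 * π) : ℝ) : ℂ) * Complex.I = ((2 * θ - t : ℝ) : ℂ) * Complex.I +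
        ((-1 : ℤ) : ℂ) * (2 * π * Complex.I) := by
      push_cast
      ring
    simp only
    rw [h2, Complex.exp_add, Complex.exp_int_mul_two_pi_mul_I, mul_one]
  · intro s hs t
    have h1 : ‖(((1 - s) * ρ : ℝ) : ℂ) * Complex.exp (((2 * θ - t : ℝ) : ℂ) * Complex.I)‖ =
        (1 - s) * ρ := norm_rho (mul_nonneg (by linarith [hs.2]) hρ0.le) _
    have h2 : (1 - s) * ρ ≤ ρ := by nlinarith [hs.1]
    have h3 : ‖cen l + (((1 - s) * ρ : ℝ) : ℂ) *
        Complex.exp (((2 * θ - t : ℝ) : ℂ) * Complex.I)‖ < 1 := norm_lt_one' (by rw [h1]; linarith)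
    refine ⟨Phi_mem_dom hl h3 θ, ?_⟩
    simp only
    rw [g_Phi hl h3, add_sub_cancel_left, h1]
    exact h2
  · intro t
    norm_num

theorem hasRotationalTransform_tor (hl : l ≠ 0) {ρ : ℝ} (hρ0 : 0 < ρ) (hρ : ρ < rad l) :
    HasRotationalTransform (tor l ρ) (field l) 2 := by
  have hmem : ∀ q : ℝ × ℝ,
      ((cen l + ρ * Complex.exp (((2 * q.1 - q.2 : ℝ) : ℂ) * Complex.I), q.1) : ℂ × ℝ) ∈ openTube 1 := by
    intro q
    apply norm_lt_one'
    rw [norm_rho hρ0.le]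
    exact hρ
  have hA : ∀ q : ℝ × ℝ, HasFDerivAt (fun q : ℝ × ℝ =>
      ((cen l + ρ * Complex.exp (((2 * q.1 - q.2 : ℝ) : ℂ) * Complex.I), q.1) : ℂ × ℝ))
      (((ContinuousLinearMap.smulRight (1 : ℝ →L[ℝ] ℝ)
        ((ρ : ℂ) * (Complex.exp (((2 * q.1 - q.2 : ℝ) : ℂ) * Complex.I) * Complex.I))).comp
          ((2 : ℝ) • ContinuousLinearMap.fst ℝ ℝ ℝ - ContinuousLinearMap.snd ℝ ℝ ℝ)).prod
            (ContinuousLinearMap.fst ℝ ℝ ℝ)) q := by
    intro q
    have hd : HasDerivAt (fun t : ℝ => cen l + ρ * Complex.exp (t * Complex.I))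
        (ρ * (Complex.exp (((2 * q.1 - q.2 : ℝ) : ℂ) * Complex.I) * Complex.I)) (2 * q.1 - q.2) := by
      have h := (((Complex.ofRealCLM.hasDerivAt (x := 2 * q.1 - q.2)).mul_const
        Complex.I).cexp).const_mul (ρ : ℂ)
      have h' := h.const_add (cen l)
      simpa using h'
    have hb : HasFDerivAt (fun q : ℝ × ℝ => 2 * q.1 - q.2)
        ((2 : ℝ) • ContinuousLinearMap.fst ℝ ℝ ℝ - ContinuousLinearMap.snd ℝ ℝ ℝ) q :=
      (hasFDerivAt_fst.const_mul (2 : ℝ)).sub hasFDerivAt_snd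
    exact (hd.hasFDerivAt.comp q hb).prodMk hasFDerivAt_fst
  refine ⟨Psi l ρ, fun _ => 1, ?_, ?_, ?_, ?_, ?_, ?_, ?_, ?_⟩
  · have hA : ContDiff ℝ ∞ (fun q : ℝ × ℝ =>
        ((cen l + ρ * Complex.exp (((2 * q.1 - q.2 : ℝ) : ℂ) * Complex.I), q.1) : ℂ × ℝ)) := by
      have h0 : ContDiff ℝ ∞ (fun q : ℝ × ℝ => 2 * q.1 - q.2) :=
        (contDiff_const.mul contDiff_fst).sub contDiff_snd
      have h1 : ContDiff ℝ ∞ (fun t : ℝ => (t : ℂ)) := Complex.ofRealCLM.contDiff
      have h2 : ContDiff ℝ ∞ (fun q : ℝ × ℝ => ((2 * q.1 - q.2 : ℝ) : ℂ) * Complex.I) :=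
        (h1.comp h0).mul contDiff_const
      have h3 : ContDiff ℝ ∞ (fun q : ℝ × ℝ =>
        Complex.exp (((2 * q.1 - q.2 : ℝ) : ℂ) * Complex.I)) := h2.cexp
      exact (contDiff_const.add (contDiff_const.mul h3)).prodMk contDiff_fst
    rw [← contDiffOn_univ]
    exact contDiffOn_Phi.comp hA.contDiffOn fun q _ => hmem q
  · intro q
    refine injective_comp hl (hA q) ?_ (hmem q)
    intro a b hab
    simp only [ContinuousLinearMap.prod_apply, ContinuousLinearMap.comp_apply,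
      ContinuousLinearMap.smulRight_apply, ContinuousLinearMap.coe_fst',
      ContinuousLinearMap.coe_snd', Prod.mk.injEq, sub_apply,
      smul_apply, smul_eq_mul] at hab
    have hne : (ρ : ℂ) * (Complex.exp (((2 * q.1 - q.2 : ℝ) : ℂ) * Complex.I) * Complex.I) ≠ 0 :=
      mul_ne_zero (Complex.ofReal_ne_zero.2 hρ0.ne')
        (mul_ne_zero (Complex.exp_ne_zero _) Complex.I_ne_zero)
    have h1 := smul_left_injective ℝ hne hab.1
    have h2 := hab.2
    simp at h1
    refine Prod.ext h2 ?_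
    linarith
  · intro θ φ
    constructor
    · have h2 : ((2 * (θ + 2 * π) - φ : ℝ) : ℂ) * Complex.I = ((2 * θ - φ : ℝ) : ℂ) * Complex.I +
          ((2 : ℤ) : ℂ) * (2 * π * Complex.I) := by
        push_cast
        ring
      simp only [Psi]
      rw [h2, Complex.exp_add, Complex.exp_int_mul_two_pi_mul_I, mul_one]
      exact Phi_periodic _ _
    · have h2 : ((2 * θ - (φ + 2 * π) : ℝ) : ℂ) * Complex.I = ((2 * θ - φ : ℝ) : ℂ) * Complex.I +
          ((-1 : ℤ) : ℂ) * (2 * π * Complex.I) := by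
        push_cast
        ring
      simp only [Psi]
      rw [h2, Complex.exp_add, Complex.exp_int_mul_two_pi_mul_I, mul_one]
  · intro q q' heq
    obtain ⟨h1, n, h2⟩ := Phi_inj hl (hmem q) (hmem q') heq
    have h3 := add_left_cancel h1
    have h4 := mul_left_cancel₀ (Complex.ofReal_ne_zero.2 hρ0.ne') h3
    obtain ⟨m, hm⟩ := Complex.exp_eq_exp_iff_exists_int.1 h4.symm
    refine ⟨n, 2 * n - m, Prod.ext h2 ?_⟩
    have h5 : (((2 * q'.1 - q'.2 : ℝ) : ℂ) - ((2 * q.1 - q.2 : ℝ) + m * (2 * π))) * Complex.I = 0 := by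
      rw [sub_mul, hm]; ring
    have h6 := (mul_eq_zero.1 h5).resolve_right Complex.I_ne_zero
    have h7 : (((2 * q'.1 - q'.2) - ((2 * q.1 - q.2) + m * (2 * π)) : ℝ) : ℂ) = 0 := by
      push_cast at h6 ⊢; exact h6
    have h8 := Complex.ofReal_eq_zero.1 h7
    change q'.2 = q.2 + ((2 * n - m : ℤ) : ℝ) * (2 * π)
    push_cast
    linarith
  · rw [frontier_tor hl hρ0 hρ]
    ext x
    constructor
    · rintro ⟨hx, hg⟩
      obtain ⟨θ, -, hθ⟩ := exists_Phi hl hx
      refine ⟨(θ, 2 * θ - Complex.arg (g l x)), ?_⟩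
      simp only [Psi, sub_sub_cancel]
      rw [← hg, Complex.norm_mul_exp_arg_mul_I, g, add_sub_cancel]
      exact hθ
    · rintro ⟨q, rfl⟩
      refine ⟨Phi_mem_dom hl (hmem q) q.1, ?_⟩
      rw [Psi, g_Phi hl (hmem q), add_sub_cancel_left, norm_rho hρ0.le]
  · exact meridian_contractible hl hρ0 hρ
  · exact longitude_contractible hl hρ0 hρ
  · intro q
    refine ⟨one_pos, ?_⟩
    rw [one_smul]
    have h1 : HasFDerivAt (Psi l ρ) (fderiv ℝ (Psi l ρ) q) q :=
      ((differentiableAt_Phi (l := l) (hmem q)).hasFDerivAt.comp q (hA q)).differentiableAt.hasFDerivAt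
    have h2 : HasDerivAt (fun t : ℝ => ((q.1 + t, q.2 + 2 * t) : ℝ × ℝ)) (1, 2) 0 := by
      refine HasDerivAt.prodMk ?_ ?_
      · simpa using (hasDerivAt_id (0 : ℝ)).const_add q.1
      · simpa using ((hasDerivAt_id (0 : ℝ)).const_mul 2).const_add q.2
    have h3 : HasFDerivAt (Psi l ρ) (fderiv ℝ (Psi l ρ) q) ((q.1 + 0, q.2 + 2 * 0) : ℝ × ℝ) := by
      simpa using h1
    have h4 := h3.comp_hasDerivAt (0 : ℝ) h2
    have h5 : HasDerivAt (fun t : ℝ => Phi l (cen l + ρ * Complex.exp (((2 * q.1 - q.2 : ℝ) : ℂ) *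
        Complex.I), q.1 + t)) (field l (Psi l ρ q)) 0 := by
      have h6 := hasDerivAt_Phi hl (hmem q) q.1
      have h7 : HasDerivAt (fun t => Phi l (cen l + ρ * Complex.exp (((2 * q.1 - q.2 : ℝ) : ℂ) *
        Complex.I), t)) (field l (Psi l ρ q)) (q.1 + 0) := by
        rw [add_zero]; exact h6
      exact h7.comp_const_add q.1 0
    have h8 : (Psi l ρ ∘ fun t : ℝ => ((q.1 + t, q.2 + 2 * t) : ℝ × ℝ)) = fun t : ℝ =>
        Phi l (cen l + ρ * Complex.exp (((2 * q.1 - q.2 : ℝ) : ℂ) * Complex.I), q.1 + t) := by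
      funext t
      simp only [Psi, Function.comp]
      congr 5
      push_cast
      ring
    rw [h8] at h4
    exact h5.unique h4

end Pool.Agent.H29.GradF
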